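import Mathlib

/-! The determinants `det [y^m (1-y)^⌊(r+m)/2⌋]` divided by the Vandermonde determinant. -/

namespace Pool.Agent.helper40.MT

open Finset Matrix

/-- the basis functions -/
def F (r m : ℕ) (y : ℚ) : ℚ := y ^ m * (1 - y) ^ ((r + m) / 2)

/-- numerator determinant -/
def Wd (r : ℕ) {M : ℕ} (y : Fin M → ℚ) : ℚ := (Matrix.of fun i j : Fin M => F r j (y i)).det

/-- Vandermonde determinant -/
def Vd {M : ℕ} (y : Fin M → ℚ) : ℚ := (Matrix.vandermonde y).det

lemma F_succ_succ (r m : ℕ) (y : ℚ) : F r (m + 2) y = (y ^ 2 * (1 - y)) * F r m y := by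
  unfold F
  have : (r + (m + 2)) / 2 = (r + m) / 2 + 1 := by omega
  rw [this]; ring

lemma Vd_cons {M : ℕ} (X : ℚ) (y : Fin M → ℚ) :
    Vd (Fin.cons X y : Fin (M + 1) → ℚ) = (∏ i, (y i - X)) * Vd y := by
  unfold Vd
  rw [Matrix.det_vandermonde, Matrix.det_vandermonde, Fin.prod_univ_succ, Fin.prod_Ioi_zero]
  simp only [Fin.cons_zero, Fin.cons_succ, Fin.prod_Ioi_succ]

lemma Vd_ne_zero {M : ℕ} {y : Fin M → ℚ} (hy : Function.Injective y) : Vd y ≠ 0 :=
  Matrix.det_vandermonde_ne_zero_iff.2 hy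

lemma Wd_comp_perm (r : ℕ) {M : ℕ} (y : Fin M → ℚ) (σ : Equiv.Perm (Fin M)) :
    Wd r (y ∘ σ) = (Equiv.Perm.sign σ : ℤ) * Wd r y := by
  unfold Wd
  rw [← Matrix.det_permute σ]
  rfl

lemma Vd_comp_perm {M : ℕ} (y : Fin M → ℚ) (σ : Equiv.Perm (Fin M)) :
    Vd (y ∘ σ) = (Equiv.Perm.sign σ : ℤ) * Vd y := by
  unfold Vd
  rw [← Matrix.det_permute σ]
  rfl

/-- the ratio as a function of a finite set -/
noncomputable def Psi (r : ℕ) (Y : Finset ℚ) : ℚ :=
  Wd r (Y.orderEmbOfFin rfl) / Vd (Y.orderEmbOfFin rfl)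

lemma Psi_eq_of_card (r : ℕ) (Y : Finset ℚ) (M : ℕ) (h : Y.card = M) :
    Psi r Y = Wd r (Y.orderEmbOfFin h) / Vd (Y.orderEmbOfFin h) := by
  subst h; rfl

lemma Wd_eq_Psi (r : ℕ) {M : ℕ} (y : Fin M → ℚ) (hy : Function.Injective y) :
    Wd r y = Psi r (Finset.univ.image y) * Vd y := by
  set Y := Finset.univ.image y with hY
  have hcard : Y.card = M := by
    rw [hY, Finset.card_image_of_injective _ hy]; simp
  have hmem : ∀ i, y i ∈ Y := fun i => Finset.mem_image_of_mem _ (Finset.mem_univ i)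
  let s : Fin M → Fin M := fun i => (Y.orderIsoOfFin hcard).symm ⟨y i, hmem i⟩
  have hs : ∀ i, Y.orderEmbOfFin hcard (s i) = y i := by
    intro i
    rw [← Finset.coe_orderIsoOfFin_apply]
    simp [s]
  have hinj : Function.Injective s := by
    intro i j hij
    apply hy
    rw [← hs i, ← hs j, hij]
  let σ : Equiv.Perm (Fin M) := Equiv.ofBijective s (Finite.injective_iff_bijective.1 hinj)
  have hyσ : y = (Y.orderEmbOfFin hcard) ∘ σ := by
    funext i
    exact (hs i).symm
  rw [Psi_eq_of_card r Y M hcard]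
  have hV : Vd (Y.orderEmbOfFin hcard) ≠ 0 := Vd_ne_zero (Y.orderEmbOfFin hcard).injective
  conv_lhs => rw [hyσ]
  conv_rhs => rw [hyσ]
  rw [Wd_comp_perm, Vd_comp_perm]
  field_simp

/-- reduction of two rows with the same value of `y^2(1-y)` -/
lemma Wd_reduce (r : ℕ) {M : ℕ} (b v γ : ℚ) (y : Fin M → ℚ) (hb : b ^ 2 * (1 - b) = γ)
    (hv : v ^ 2 * (1 - v) = γ) :
    Wd r (Fin.cons b (Fin.cons v y : Fin (M + 1) → ℚ) : Fin (M + 2) → ℚ) =
      (F r 0 b * F r 1 v - F r 1 b * F r 0 v) * ((∏ i, (y i ^ 2 * (1 - y i) - γ)) * Wd r y) := by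
  set y' : Fin (M + 2) → ℚ := Fin.cons b (Fin.cons v y : Fin (M + 1) → ℚ) with hy'
  set A : Matrix (Fin (M + 2)) (Fin (M + 2)) ℚ := Matrix.of fun i j => F r j (y' i) with hA
  let N : Matrix (Fin (M + 2)) (Fin (M + 2)) ℚ :=
    Matrix.of fun i j => if i.val + 2 = j.val then 1 else 0
  let E : Matrix (Fin (M + 2)) (Fin (M + 2)) ℚ := 1 - γ • N
  have hE : E.det = 1 := by
    rw [Matrix.det_of_isUpperTriangular]
    · apply Finset.prod_eq_one
      intro i _
      simp [E, N]
    · intro i j hij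
      have h1 : i ≠ j := fun h => by rw [h] at hij; exact lt_irrefl _ hij
      have h2 : ¬ (i.val + 2 = j.val) := by
        have : j.val < i.val := hij
        omega
      simp [E, N, Matrix.one_apply_ne h1, h2]
  let B : Matrix (Fin (M + 2)) (Fin (M + 2)) ℚ := Matrix.of fun i =>
    (Fin.cons (F r 0 (y' i)) (Fin.cons (F r 1 (y' i))
      (fun j : Fin M => (y' i ^ 2 * (1 - y' i) - γ) * F r j (y' i)) : Fin (M + 1) → ℚ) :
      Fin (M + 2) → ℚ)
  have hAE : A * E = B := by
    ext i j
    have h1 : (A * E) i j = A i j - γ * (A * N) i j := by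
      simp only [E, Matrix.mul_sub, Matrix.mul_one, Matrix.mul_smul, Matrix.sub_apply,
        Matrix.smul_apply, smul_eq_mul]
    rw [h1]
    refine Fin.cases ?_ (fun j => ?_) j
    · have : (A * N) i 0 = 0 := by
        rw [Matrix.mul_apply]
        apply Finset.sum_eq_zero
        intro k _
        simp [N]
      rw [this]
      simp [A, B]
    · refine Fin.cases ?_ (fun j => ?_) j
      · have : (A * N) i (Fin.succ 0) = 0 := by
          rw [Matrix.mul_apply]
          apply Finset.sum_eq_zero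
          intro k _
          have : ¬ (k.val + 2 = ((Fin.succ 0 : Fin (M + 2)) : ℕ)) := by simp
          simp only [N, Matrix.of_apply, if_neg this, mul_zero]
        rw [this]
        simp [A, B]
      · have : (A * N) i j.succ.succ = F r j (y' i) := by
          rw [Matrix.mul_apply, Finset.sum_eq_single (j.castSucc.castSucc)]
          · simp [A, N]
          · intro k _ hk
            have : ¬ (k.val + 2 = (j.succ.succ : Fin (M + 2)).val) := by
              intro h
              apply hk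
              ext
              simp at h ⊢
              omega
            simp only [N, Matrix.of_apply, if_neg this, mul_zero]
          · intro h; exact absurd (Finset.mem_univ _) h
        rw [this]
        have h2 : A i j.succ.succ = (y' i ^ 2 * (1 - y' i)) * F r j (y' i) := by
          rw [← F_succ_succ]
          simp [A]
        rw [h2]
        simp only [B, Matrix.of_apply, Fin.cons_succ]
        ring
  have hdet : A.det = B.det := by
    rw [← hAE, Matrix.det_mul, hE, mul_one]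
  have hWA : Wd r y' = A.det := rfl
  rw [hWA, hdet]
  have hy0 : y' 0 = b := rfl
  have hy1 : y' (Fin.succ 0) = v := rfl
  have hy2 : ∀ i : Fin M, y' i.succ.succ = y i := fun i => rfl
  have hB0 : ∀ j : Fin M, B 0 j.succ.succ = 0 := by
    intro j
    simp only [B, Matrix.of_apply, Fin.cons_succ, hy0, hb, sub_self, zero_mul]
  have hB1 : ∀ j : Fin M, B (Fin.succ 0) j.succ.succ = 0 := by
    intro j
    simp only [B, Matrix.of_apply, Fin.cons_succ, hy1, hv, sub_self, zero_mul]
  have hblock : ((B.submatrix Fin.succ Fin.succ).submatrix Fin.succ Fin.succ).det =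
      (∏ i, (y i ^ 2 * (1 - y i) - γ)) * Wd r y := by
    unfold Wd
    rw [← Matrix.det_mul_column]
    rfl
  have hd0 : (B.submatrix Fin.succ Fin.succ).det =
      F r 1 v * ((∏ i, (y i ^ 2 * (1 - y i) - γ)) * Wd r y) := by
    rw [Matrix.det_succ_row_zero, Fin.sum_univ_succ, Finset.sum_eq_zero, ← hblock]
    · have : B.submatrix Fin.succ Fin.succ 0 0 = F r 1 v := rfl
      rw [this]
      simp
    · intro j _
      have : B.submatrix Fin.succ Fin.succ 0 j.succ = 0 := hB1 j
      rw [this]; ring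
  have hd1 : (B.submatrix Fin.succ (Fin.succAbove (Fin.succ 0))).det =
      F r 0 v * ((∏ i, (y i ^ 2 * (1 - y i) - γ)) * Wd r y) := by
    rw [Matrix.det_succ_row_zero, Fin.sum_univ_succ, Finset.sum_eq_zero, ← hblock]
    · have : B.submatrix Fin.succ (Fin.succAbove (Fin.succ 0)) 0 0 = F r 0 v := by
        simp only [Matrix.submatrix_apply]
        have : (Fin.succ 0 : Fin (M + 2)).succAbove 0 = 0 := by
          simp
        rw [this]
        rfl
      rw [this]
      simp only [Fin.val_zero, pow_zero, one_mul, add_zero]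
      congr 1
    · intro j _
      have : B.submatrix Fin.succ (Fin.succAbove (Fin.succ 0)) 0 j.succ = 0 := by
        simp only [Matrix.submatrix_apply]
        have h3 : (Fin.succ 0 : Fin (M + 2)).succAbove j.succ = j.succ.succ := by
          rw [Fin.succ_succAbove_succ]
          simp
        rw [h3]
        exact hB1 j
      rw [this]; ring
  rw [Matrix.det_succ_row_zero, Fin.sum_univ_succ, Fin.sum_univ_succ, Finset.sum_eq_zero]
  · have h4 : B 0 0 = F r 0 b := rfl
    have h5 : B 0 (Fin.succ 0) = F r 1 b := rfl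
    have h6 : (Fin.succAbove (0 : Fin (M + 2))) = Fin.succ := by
      funext j; simp
    rw [h4, h5, h6, hd0, hd1]
    simp
    ring
  · intro j _
    rw [hB0 j]; ring

/-- removing the point `0` -/
lemma Wd_zero (r : ℕ) {M : ℕ} (y : Fin M → ℚ) :
    Wd r (Fin.cons 0 y : Fin (M + 1) → ℚ) = (∏ i, y i) * Wd (r + 1) y := by
  unfold Wd
  rw [Matrix.det_succ_row_zero, Fin.sum_univ_succ, Finset.sum_eq_zero, ← Matrix.det_mul_column]
  · have h6 : (Fin.succAbove (0 : Fin (M + 1))) = Fin.succ := by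
      funext j; simp
    rw [h6]
    simp only [Fin.val_zero, pow_zero, one_mul, add_zero, Matrix.of_apply, Fin.cons_zero]
    have : F r 0 0 = 1 := by simp [F]
    rw [this, one_mul]
    congr 1
    ext i j
    simp only [Matrix.submatrix_apply, Matrix.of_apply, Fin.cons_succ, Fin.val_succ]
    unfold F
    have : (r + (j.val + 1)) / 2 = (r + 1 + j.val) / 2 := by congr 1; omega
    rw [this]
    ring
  · intro j _
    have : (Matrix.of fun i j : Fin (M + 1) => F r j ((Fin.cons 0 y : Fin (M + 1) → ℚ) i)) 0 j.succ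
        = 0 := by
      simp [F]
    rw [this]; ring

/-- factoring out powers of `1-y` -/
lemma Wd_even (n : ℕ) {M : ℕ} (y : Fin M → ℚ) :
    Wd (2 * n) y = (∏ i, (1 - y i) ^ n) * Wd 0 y := by
  unfold Wd
  rw [← Matrix.det_mul_column]
  congr 1
  ext i j
  simp only [Matrix.of_apply]
  unfold F
  have : (2 * n + j.val) / 2 = n + (0 + j.val) / 2 := by omega
  rw [this, pow_add]
  ring

/-- being a polynomial function of degree at most `d` -/
def PolyLe (d : ℕ) (f : ℚ → ℚ) : Prop :=
  ∃ p : Polynomial ℚ, p.natDegree ≤ d ∧ ∀ x, f x = p.eval x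

lemma PolyLe.mono {d e : ℕ} {f : ℚ → ℚ} (h : PolyLe d f) (hde : d ≤ e) : PolyLe e f := by
  obtain ⟨p, hp, hf⟩ := h
  exact ⟨p, hp.trans hde, hf⟩

lemma PolyLe.const (d : ℕ) (c : ℚ) : PolyLe d (fun _ => c) :=
  ⟨Polynomial.C c, by simp, by simp⟩

lemma PolyLe.linear (a b : ℚ) : PolyLe 1 (fun x => a * x + b) :=
  ⟨Polynomial.C a * Polynomial.X + Polynomial.C b, Polynomial.natDegree_linear_le, by simp⟩

lemma PolyLe.mul {d e : ℕ} {f g : ℚ → ℚ} (hf : PolyLe d f) (hg : PolyLe e g) :
    PolyLe (d + e) (fun x => f x * g x) := by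
  obtain ⟨p, hp, hf⟩ := hf
  obtain ⟨q, hq, hg⟩ := hg
  exact ⟨p * q, Polynomial.natDegree_mul_le_of_le hp hq, fun x => by
    simp only [Polynomial.eval_mul, hf, hg]⟩

lemma PolyLe.sum {ι : Type*} (s : Finset ι) {d : ℕ} {f : ι → ℚ → ℚ}
    (hf : ∀ i ∈ s, PolyLe d (f i)) : PolyLe d (fun x => ∑ i ∈ s, f i x) := by
  classical
  induction s using Finset.induction_on with
  | empty => simpa using PolyLe.const d 0
  | insert a s ha ih =>
    obtain ⟨p, hp, hf1⟩ := hf a (Finset.mem_insert_self a s)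
    obtain ⟨q, hq, hf2⟩ := ih (fun i hi => hf i (Finset.mem_insert_of_mem hi))
    refine ⟨p + q, Polynomial.natDegree_add_le_of_degree_le hp hq, fun x => ?_⟩
    simp only [Finset.sum_insert ha, Polynomial.eval_add, hf1, hf2]

lemma PolyLe.prod {ι : Type*} (s : Finset ι) {d : ℕ} {f : ι → ℚ → ℚ}
    (hf : ∀ i ∈ s, PolyLe d (f i)) : PolyLe (s.card * d) (fun x => ∏ i ∈ s, f i x) := by
  classical
  induction s using Finset.induction_on with
  | empty => simpa using PolyLe.const 0 1
  | insert a s ha ih =>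
    have h1 := hf a (Finset.mem_insert_self a s)
    have h2 := ih (fun i hi => hf i (Finset.mem_insert_of_mem hi))
    have h3 := h1.mul h2
    have h4 : d + s.card * d ≤ (insert a s).card * d := by
      rw [Finset.card_insert_of_notMem ha]; exact le_of_eq (by ring)
    refine PolyLe.mono ?_ h4
    convert h3 using 2
    rw [Finset.prod_insert ha]

lemma PolyLe.pow {d : ℕ} {f : ℚ → ℚ} (hf : PolyLe d f) (n : ℕ) :
    PolyLe (n * d) (fun x => f x ^ n) := by
  have := PolyLe.prod (Finset.range n) (f := fun _ => f) (d := d) (fun _ _ => hf)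
  simpa using this

lemma PolyLe.eq_of_card {d : ℕ} {f g : ℚ → ℚ} (hf : PolyLe d f) (hg : PolyLe d g)
    (S : Finset ℚ) (hS : d < S.card) (h : ∀ x ∈ S, f x = g x) (x : ℚ) : f x = g x := by
  obtain ⟨p, hp, hf⟩ := hf
  obtain ⟨q, hq, hg⟩ := hg
  have : p = q := by
    apply Polynomial.eq_of_degree_sub_lt_of_eval_finset_eq S
    · refine lt_of_le_of_lt (Polynomial.degree_sub_le _ _) ?_
      refine lt_of_le_of_lt (max_le ?_ ?_) (by exact_mod_cast hS : (d : WithBot ℕ) < S.card)
      · exact Polynomial.natDegree_le_iff_degree_le.1 hp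
      · exact Polynomial.natDegree_le_iff_degree_le.1 hq
    · intro x hx
      rw [← hf, ← hg, h x hx]
  rw [hf, hg, this]

lemma PolyLe.F (r m : ℕ) : PolyLe (m + (r + m) / 2) (F r m) := by
  have h1 : PolyLe (m * 1) (fun x : ℚ => x ^ m) := by
    have := (PolyLe.linear 1 0).pow m
    simpa using this
  have h2 : PolyLe ((r + m) / 2 * 1) (fun x : ℚ => (1 - x) ^ ((r + m) / 2)) := by
    have := (PolyLe.linear (-1) 1).pow ((r + m) / 2)
    convert this using 2
    ring
  have := h1.mul h2
  simp only [mul_one] at this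
  exact this

lemma PolyLe.Wd (r : ℕ) {M : ℕ} (y : Fin M → ℚ) :
    PolyLe (M + (r + M) / 2) (fun X => Wd r (Fin.cons X y : Fin (M + 1) → ℚ)) := by
  have h : (fun X => MT.Wd r (Fin.cons X y : Fin (M + 1) → ℚ)) = fun X =>
      ∑ j : Fin (M + 1), ((-1) ^ (j : ℕ) * ((Matrix.of fun i j : Fin (M + 1) =>
        MT.F r j ((Fin.cons 0 y : Fin (M + 1) → ℚ) i)).submatrix Fin.succ j.succAbove).det) *
        MT.F r j X := by
    funext X
    unfold MT.Wd
    rw [Matrix.det_succ_row_zero]
    refine Finset.sum_congr rfl fun j _ => ?_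
    simp only [Matrix.of_apply, Fin.cons_zero]
    have : ((Matrix.of fun i j : Fin (M + 1) =>
        MT.F r j ((Fin.cons X y : Fin (M + 1) → ℚ) i)).submatrix Fin.succ j.succAbove) =
        ((Matrix.of fun i j : Fin (M + 1) =>
        MT.F r j ((Fin.cons 0 y : Fin (M + 1) → ℚ) i)).submatrix Fin.succ j.succAbove) := by
      ext a b
      simp
    rw [this]
    ring
  rw [h]
  apply PolyLe.sum
  intro j _
  have h1 := (PolyLe.const 0 ((-1) ^ (j : ℕ) * ((Matrix.of fun i j : Fin (M + 1) =>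
        MT.F r j ((Fin.cons 0 y : Fin (M + 1) → ℚ) i)).submatrix Fin.succ j.succAbove).det)).mul
        (PolyLe.F r j)
  refine h1.mono ?_
  have : j.val ≤ M := Nat.lt_succ_iff.1 j.2
  omega

lemma Wd_eq_zero_of_mem (r : ℕ) {M : ℕ} (y : Fin M → ℚ) (i : Fin M) :
    Wd r (Fin.cons (y i) y : Fin (M + 1) → ℚ) = 0 := by
  unfold Wd
  refine Matrix.det_zero_of_row_eq (i := 0) (j := i.succ) (Fin.succ_ne_zero i).symm ?_
  ext j
  simp

end Pool.Agent.helper40.MT
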