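import Mathlib

/-! Wavefunction sums over a finite set of rational points, and the branching rule. -/

namespace Pool.Agent.helper40.MT

open Finset

/-- two-body factor -/
def K (u w : ℚ) : ℚ := (1 - u + u * w) / (w - u)

/-- wavefunction sum: the first function is evaluated at the first chosen point, etc. -/
def Z : List (ℚ → ℚ) → Finset ℚ → ℚ
  | [], _ => 1
  | f :: fs, U => ∑ u ∈ U, f u * (∏ w ∈ U.erase u, K u w) * Z fs (U.erase u)

lemma Z_cons (f : ℚ → ℚ) (fs : List (ℚ → ℚ)) (U : Finset ℚ) :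
    Z (f :: fs) U = ∑ u ∈ U, f u * (∏ w ∈ U.erase u, K u w) * Z fs (U.erase u) := rfl

/-- multiplying all functions by a common function -/
lemma Z_mulsym (h : ℚ → ℚ) (fs : List (ℚ → ℚ)) (U : Finset ℚ) (hU : fs.length = U.card) :
    Z (fs.map fun f u => f u * h u) U = (∏ u ∈ U, h u) * Z fs U := by
  induction fs generalizing U with
  | nil =>
    have : U = ∅ := by
      rw [← Finset.card_eq_zero]; simpa using hU.symm
    subst this
    simp [Z]
  | cons f fs ih =>
    rw [List.map_cons, Z_cons, Z_cons, Finset.mul_sum]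
    refine Finset.sum_congr rfl fun u hu => ?_
    have hc : fs.length = (U.erase u).card := by
      rw [Finset.card_erase_of_mem hu, ← hU]; simp
    rw [ih (U.erase u) hc, ← Finset.mul_prod_erase U h hu]
    ring

/-- the antisymmetric double sum vanishes -/
lemma double_antisymm (U : Finset ℚ) (G : ℚ → ℚ → ℚ)
    (hG : ∀ u ∈ U, ∀ w ∈ U, u ≠ w → G u w = - G w u) :
    ∑ u ∈ U, ∑ w ∈ U.erase u, G u w = 0 := by
  have h1 : ∑ u ∈ U, ∑ w ∈ U.erase u, G u w = ∑ w ∈ U, ∑ u ∈ U.erase w, G u w := by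
    refine Finset.sum_comm' ?_
    intro x y
    simp only [Finset.mem_erase]
    constructor
    · rintro ⟨h1, h2, h3⟩; exact ⟨⟨Ne.symm h2, h1⟩, h3⟩
    · rintro ⟨⟨h1, h2⟩, h3⟩; exact ⟨h2, Ne.symm h1, h3⟩
  have h2 : ∑ w ∈ U, ∑ u ∈ U.erase w, G u w = - ∑ w ∈ U, ∑ u ∈ U.erase w, G w u := by
    rw [← Finset.sum_neg_distrib]
    refine Finset.sum_congr rfl fun w hw => ?_
    rw [← Finset.sum_neg_distrib]
    refine Finset.sum_congr rfl fun u hu => ?_
    exact hG u (Finset.mem_of_mem_erase hu) w hw (Finset.ne_of_mem_erase hu)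
  linarith

/-- power weights -/
def P (k : List ℤ) (U : Finset ℚ) : ℚ := Z (k.map fun k u => u ^ k) U

lemma P_nil (U : Finset ℚ) : P [] U = 1 := rfl

lemma P_cons (k : ℤ) (ks : List ℤ) (U : Finset ℚ) :
    P (k :: ks) U = ∑ u ∈ U, u ^ k * (∏ w ∈ U.erase u, K u w) * P ks (U.erase u) := rfl

lemma P_shift (k : List ℤ) (m : ℤ) (U : Finset ℚ) (hU : k.length = U.card)
    (h0 : ∀ u ∈ U, u ≠ 0) :
    P (k.map (· + m)) U = (∏ u ∈ U, u ^ m) * P k U := by
  induction k generalizing U with
  | nil =>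
    have : U = ∅ := by
      rw [← Finset.card_eq_zero]; simpa using hU.symm
    subst this
    simp [P, Z]
  | cons k ks ih =>
    rw [List.map_cons, P_cons, P_cons, Finset.mul_sum]
    refine Finset.sum_congr rfl fun u hu => ?_
    have hc : ks.length = (U.erase u).card := by
      rw [Finset.card_erase_of_mem hu, ← hU]; simp
    rw [ih (U.erase u) hc (fun w hw => h0 w (Finset.mem_of_mem_erase hw)),
      ← Finset.mul_prod_erase U (fun u => u ^ m) hu, zpow_add₀ (h0 u hu)]
    ring

lemma P_cons_cons (a b : ℤ) (l : List ℤ) (U : Finset ℚ) :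
    P (a :: b :: l) U = ∑ u ∈ U, ∑ w ∈ U.erase u, (u ^ a * w ^ b) *
      (K u w * ((∏ z ∈ (U.erase u).erase w, K u z) *
        (∏ z ∈ (U.erase u).erase w, K w z) * P l ((U.erase u).erase w))) := by
  rw [P_cons]
  refine Finset.sum_congr rfl fun u _ => ?_
  rw [P_cons, Finset.mul_sum]
  refine Finset.sum_congr rfl fun w hw => ?_
  rw [← Finset.mul_prod_erase (U.erase u) (fun z => K u z) hw]
  ring

/-- the exchange relation -/
lemma P_exchange (k : ℤ) (l : List ℤ) (U : Finset ℚ) (h0 : ∀ u ∈ U, u ≠ 0) :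
    P (k :: k :: l) U + P ((k + 1) :: (k + 1) :: l) U = P (k :: (k + 1) :: l) U := by
  rw [← sub_eq_zero, P_cons_cons, P_cons_cons, P_cons_cons, ← Finset.sum_add_distrib,
    ← Finset.sum_sub_distrib]
  simp_rw [← Finset.sum_add_distrib, ← Finset.sum_sub_distrib]
  apply double_antisymm
  intro u hu w hw huw
  have hset : (U.erase u).erase w = (U.erase w).erase u := Finset.erase_right_comm
  rw [hset]
  have h1 : w - u ≠ 0 := sub_ne_zero.2 (Ne.symm huw)
  have h2 : u - w ≠ 0 := sub_ne_zero.2 huw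
  have hu0 := h0 u hu
  have hw0 := h0 w hw
  set Q1 := ∏ z ∈ (U.erase w).erase u, K u z
  set Q2 := ∏ z ∈ (U.erase w).erase u, K w z
  set R := P l ((U.erase w).erase u)
  rw [zpow_add_one₀ hu0, zpow_add_one₀ hw0]
  unfold K
  have h3 : (1 - u + u * w) / (w - u) = - ((1 - u + u * w) / (u - w)) := by
    rw [← neg_sub u w, div_neg]
  rw [h3]
  field_simp
  ring

/-- alternating sum over the deleted position; later entries are increased by one -/
def Alt (f : List ℤ → ℚ) : List ℤ → ℚ
  | [] => 0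
  | k :: ks => f (ks.map (· + 1)) - Alt (fun l => f (k :: l)) ks

lemma Alt_sum {ι : Type*} (s : Finset ι) (c : ι → ℚ) (f : ι → List ℤ → ℚ) (k : List ℤ) :
    Alt (fun l => ∑ i ∈ s, c i * f i l) k = ∑ i ∈ s, c i * Alt (f i) k := by
  induction k generalizing f with
  | nil => simp [Alt]
  | cons k ks ih =>
    simp only [Alt]
    rw [ih (fun i l => f i (k :: l)), ← Finset.sum_sub_distrib]
    refine Finset.sum_congr rfl fun i _ => ?_
    ring

lemma Alt_add (f g : List ℤ → ℚ) (k : List ℤ) :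
    Alt (fun l => f l + g l) k = Alt f k + Alt g k := by
  induction k generalizing f g with
  | nil => simp [Alt]
  | cons k ks ih =>
    simp only [Alt]
    rw [ih (fun l => f (k :: l)) (fun l => g (k :: l))]
    ring

lemma Alt_P_cons (a : ℤ) (ks : List ℤ) (U : Finset ℚ) :
    Alt (fun l => P (a :: l) U) ks =
      ∑ u ∈ U, (u ^ a * ∏ w ∈ U.erase u, K u w) * Alt (fun l => P l (U.erase u)) ks := by
  rw [← Alt_sum]
  rfl

/-- adding the point `1` -/
lemma P_insert_one (k : List ℤ) (U : Finset ℚ) (hU : k.length = U.card + 1)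
    (h1 : (1 : ℚ) ∉ U) (h0 : ∀ u ∈ U, u ≠ 0) :
    P k (insert 1 U) * ∏ u ∈ U, (u - 1) = Alt (fun l => P l U) k := by
  induction k generalizing U with
  | nil => simp at hU
  | cons k ks ih =>
    have hlen : ks.length = U.card := by simpa using hU
    rw [P_cons, Finset.sum_insert h1, Finset.erase_insert h1, one_zpow, one_mul, add_mul]
    have hne : ∀ u ∈ U, u - 1 ≠ 0 := fun u hu => by
      intro h; apply h1; rw [sub_eq_zero] at h; rwa [← h]
    have e1 : (∏ w ∈ U, K 1 w) * P ks U * ∏ u ∈ U, (u - 1) = P (ks.map (· + 1)) U := by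
      rw [P_shift ks 1 U hlen h0]
      have : (∏ w ∈ U, K 1 w) * ∏ u ∈ U, (u - 1) = ∏ u ∈ U, u ^ (1 : ℤ) := by
        rw [← Finset.prod_mul_distrib]
        refine Finset.prod_congr rfl fun u hu => ?_
        have := hne u hu
        unfold K
        rw [zpow_one]
        field_simp
        ring
      rw [← this]; ring
    rw [e1]
    simp only [Alt]
    rw [Alt_P_cons, sub_eq_add_neg, ← Finset.sum_neg_distrib, Finset.sum_mul]
    congr 1
    refine Finset.sum_congr rfl fun u hu => ?_
    have hu1 : u ≠ 1 := fun h => h1 (h ▸ hu)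
    have hers : (insert (1 : ℚ) U).erase u = insert 1 (U.erase u) :=
      Finset.erase_insert_of_ne (Ne.symm hu1)
    have h1' : (1 : ℚ) ∉ U.erase u := fun h => h1 (Finset.mem_of_mem_erase h)
    have hcard : ks.length = (U.erase u).card + 1 := by
      rw [Finset.card_erase_of_mem hu, hlen]
      have : 0 < U.card := Finset.card_pos.2 ⟨u, hu⟩
      omega
    rw [hers, Finset.prod_insert h1', ← Finset.mul_prod_erase U (fun u => u - 1) hu]
    rw [← ih (U.erase u) hcard h1' (fun w hw => h0 w (Finset.mem_of_mem_erase hw))]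
    have hK : K u 1 * (u - 1) = -1 := by
      unfold K
      have h3 : (1 : ℚ) - u ≠ 0 := sub_ne_zero.2 (Ne.symm hu1)
      field_simp
      ring
    calc u ^ k * (K u 1 * ∏ w ∈ U.erase u, K u w) * P ks (insert 1 (U.erase u)) *
          ((u - 1) * ∏ x ∈ U.erase u, (x - 1))
        = (K u 1 * (u - 1)) * (u ^ k * (∏ w ∈ U.erase u, K u w)) *
          (P ks (insert 1 (U.erase u)) * ∏ x ∈ U.erase u, (x - 1)) := by ring
      _ = _ := by rw [hK]; ring

/-- sum over the interlacing rows, recursively -/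
noncomputable def Rsum : (List ℤ → ℚ) → ℤ → List ℤ → ℚ
  | f, _, [] => f []
  | f, lo, k :: ks => (∑ l ∈ Finset.Ico lo k, Rsum (fun l' => f (l :: l')) k ks) +
      Rsum (fun l' => f (k :: l')) (k + 1) ks

lemma Rsum_sum {ι : Type*} (s : Finset ι) (c : ι → ℚ) (f : ι → List ℤ → ℚ) (lo : ℤ)
    (k : List ℤ) :
    Rsum (fun l => ∑ i ∈ s, c i * f i l) lo k = ∑ i ∈ s, c i * Rsum (f i) lo k := by
  induction k generalizing f lo with
  | nil => simp [Rsum]
  | cons k ks ih =>
    simp only [Rsum]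
    simp_rw [fun l : ℤ => ih (fun i l' => f i (l :: l')) k]
    rw [ih (fun i l' => f i (k :: l')) (k + 1), Finset.sum_comm, ← Finset.sum_add_distrib]
    refine Finset.sum_congr rfl fun i _ => ?_
    rw [mul_add, Finset.mul_sum]

lemma Rsum_P_cons (a : ℤ) (lo : ℤ) (ks : List ℤ) (U : Finset ℚ) :
    Rsum (fun l => P (a :: l) U) lo ks =
      ∑ u ∈ U, (u ^ a * ∏ w ∈ U.erase u, K u w) * Rsum (fun l => P l (U.erase u)) lo ks := by
  rw [← Rsum_sum]
  rfl

lemma geom_zpow (u : ℚ) (hu : u ≠ 0) (a b : ℤ) (hab : a ≤ b) :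
    ∑ l ∈ Finset.Ico a b, u ^ l * (u - 1) = u ^ b - u ^ a := by
  obtain ⟨n, rfl⟩ := Int.le.dest hab
  induction n with
  | zero => simp
  | succ n ih =>
    have h1 : Finset.Ico a (a + ((n + 1 : ℕ) : ℤ)) = insert (a + (n : ℤ)) (Finset.Ico a (a + n)) := by
      ext x
      simp only [Finset.mem_Ico, Finset.mem_insert]
      push_cast
      omega
    rw [h1, Finset.sum_insert (by simp), ih (by omega)]
    have : u ^ (a + ((n + 1 : ℕ) : ℤ)) = u ^ (a + (n : ℤ)) * u := by
      push_cast
      rw [← add_assoc, zpow_add_one₀ hu]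
    rw [this]
    ring

/-- closed form of the row sum -/
lemma Rsum_eq (ks : List ℤ) (lo : ℤ) (U : Finset ℚ) (hU : ks.length = U.card)
    (h1 : (1 : ℚ) ∉ U) (h0 : ∀ u ∈ U, u ≠ 0)
    (hlo : ∀ k ∈ ks.head?, lo ≤ k) (hs : ks.Pairwise (· < ·)) :
    Rsum (fun l => P l U) lo ks * ∏ u ∈ U, (u - 1) = Alt (fun l => P l U) (lo :: ks) := by
  induction ks generalizing lo U with
  | nil =>
    have : U = ∅ := by
      rw [← Finset.card_eq_zero]; simpa using hU.symm
    subst this
    simp [Rsum, Alt, P_nil]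
  | cons k rest ih =>
    have hlok : lo ≤ k := hlo k (by simp)
    have hrest : rest.Pairwise (· < ·) := (List.pairwise_cons.1 hs).2
    have hk : ∀ x ∈ rest, k < x := (List.pairwise_cons.1 hs).1
    have hhead : ∀ x ∈ rest.head?, k ≤ x := fun x hx =>
      (hk x (List.mem_of_mem_head? hx)).le
    have hhead' : ∀ x ∈ rest.head?, k + 1 ≤ x := fun x hx =>
      (hk x (List.mem_of_mem_head? hx))
    have hlen : rest.length + 1 = U.card := by simpa using hU
    -- step lemma
    have step : ∀ (a lo' : ℤ), (∀ x ∈ rest.head?, lo' ≤ x) →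
        Rsum (fun l' => P (a :: l') U) lo' rest * ∏ u ∈ U, (u - 1) =
          ∑ u ∈ U, (u ^ a * (u - 1)) * ((∏ w ∈ U.erase u, K u w) *
            Alt (fun l => P l (U.erase u)) (lo' :: rest)) := by
      intro a lo' hlo'
      rw [Rsum_P_cons, Finset.sum_mul]
      refine Finset.sum_congr rfl fun u hu => ?_
      have hcard : rest.length = (U.erase u).card := by
        rw [Finset.card_erase_of_mem hu]; omega
      rw [← ih lo' (U.erase u) hcard (fun h => h1 (Finset.mem_of_mem_erase h))
        (fun w hw => h0 w (Finset.mem_of_mem_erase hw)) hlo' hrest,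
        ← Finset.mul_prod_erase U (fun u => u - 1) hu]
      ring
    have hstep2 : ∀ (a lo' : ℤ), (∑ u ∈ U, u ^ a * ((∏ w ∈ U.erase u, K u w) *
            Alt (fun l => P l (U.erase u)) (lo' :: rest))) =
          Alt (fun l => P (a :: l) U) (lo' :: rest) := by
      intro a lo'
      rw [Alt_P_cons]
      refine Finset.sum_congr rfl fun u _ => ?_
      ring
    have first : (∑ l ∈ Finset.Ico lo k, Rsum (fun l' => P (l :: l') U) k rest) *
        ∏ u ∈ U, (u - 1) = Alt (fun l => P (k :: l) U) (k :: rest) -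
          Alt (fun l => P (lo :: l) U) (k :: rest) := by
      rw [Finset.sum_mul, Finset.sum_congr rfl (fun l _ => step l k hhead), Finset.sum_comm,
        ← hstep2 k k, ← hstep2 lo k, ← Finset.sum_sub_distrib]
      refine Finset.sum_congr rfl fun u hu => ?_
      rw [← Finset.sum_mul, geom_zpow u (h0 u hu) lo k hlok]
      ring
    have second : Rsum (fun l' => P (k :: l') U) (k + 1) rest * ∏ u ∈ U, (u - 1) =
        Alt (fun l => P ((k + 1) :: l) U) ((k + 1) :: rest) -
          Alt (fun l => P (k :: l) U) ((k + 1) :: rest) := by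
      rw [step k (k + 1) hhead', ← hstep2 (k + 1) (k + 1), ← hstep2 k (k + 1),
        ← Finset.sum_sub_distrib]
      refine Finset.sum_congr rfl fun u hu => ?_
      rw [zpow_add_one₀ (h0 u hu)]
      ring
    simp only [Rsum]
    rw [add_mul, first, second]
    simp only [Alt]
    have hex : Alt (fun l => P (k :: k :: l) U) rest +
        Alt (fun l => P ((k + 1) :: (k + 1) :: l) U) rest =
        Alt (fun l => P (k :: (k + 1) :: l) U) rest := by
      rw [← Alt_add]
      congr 1
      funext l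
      exact P_exchange k l U h0
    rw [List.map_cons]
    linarith

/-- branching rule -/
lemma branching (k1 : ℤ) (ks : List ℤ) (U : Finset ℚ) (hU : ks.length = U.card)
    (h1 : (1 : ℚ) ∉ U) (h0 : ∀ u ∈ U, u ≠ 0) (hs : (k1 :: ks).Pairwise (· < ·)) :
    P (k1 :: ks) (insert 1 U) = Rsum (fun l => P l U) k1 ks := by
  have hne : (∏ u ∈ U, (u - 1)) ≠ 0 := by
    rw [Finset.prod_ne_zero_iff]
    intro u hu h
    apply h1
    rw [sub_eq_zero] at h
    rwa [← h]
  have hs' := List.pairwise_cons.1 hs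
  apply mul_right_cancel₀ hne
  rw [P_insert_one (k1 :: ks) U (by simp [hU]) h1 h0,
    Rsum_eq ks k1 U hU h1 h0 (fun x hx => (hs'.1 x (List.mem_of_mem_head? hx)).le) hs'.2]

end Pool.Agent.helper40.MT
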