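import Mathlib
import Pool.Agent.helper40.MT.Wave
import Pool.Agent.helper40.MT.Det

/-! The interpolation theorem for inhomogeneous wavefunction sums. -/

namespace Pool.Agent.helper40.MT

open Finset Matrix

/-! ### enumeration of finite sets -/

lemma exists_enum (Y : Finset ℚ) : ∃ y : Fin Y.card → ℚ, Function.Injective y ∧
    Finset.univ.image y = Y := by
  refine ⟨Y.orderEmbOfFin rfl, (Y.orderEmbOfFin rfl).injective, ?_⟩
  ext x
  simp only [Finset.mem_image, Finset.mem_univ, true_and]
  constructor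
  · rintro ⟨i, rfl⟩; exact Finset.orderEmbOfFin_mem _ _ _
  · intro hx
    have := Finset.range_orderEmbOfFin Y rfl
    have h2 : x ∈ Set.range (Y.orderEmbOfFin rfl) := by rw [this]; exact hx
    exact h2

lemma prod_enum {M : ℕ} {y : Fin M → ℚ} (hy : Function.Injective y) {Y : Finset ℚ}
    (hY : Finset.univ.image y = Y) (f : ℚ → ℚ) : ∏ i, f (y i) = ∏ z ∈ Y, f z := by
  rw [← hY, Finset.prod_image (fun a _ b _ h => hy h)]

lemma cons_injective {M : ℕ} {y : Fin M → ℚ} (hy : Function.Injective y) {Y : Finset ℚ}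
    (hY : Finset.univ.image y = Y) {a : ℚ} (ha : a ∉ Y) :
    Function.Injective (Fin.cons a y : Fin (M + 1) → ℚ) := by
  rw [Fin.cons_injective_iff]
  refine ⟨?_, hy⟩
  rintro ⟨i, hi⟩
  apply ha
  rw [← hY, ← hi]
  exact Finset.mem_image_of_mem _ (Finset.mem_univ i)

lemma cons_image {M : ℕ} {y : Fin M → ℚ} {Y : Finset ℚ}
    (hY : Finset.univ.image y = Y) (a : ℚ) :
    Finset.univ.image (Fin.cons a y : Fin (M + 1) → ℚ) = insert a Y := by
  ext x
  simp only [Finset.mem_image, Finset.mem_univ, true_and, Finset.mem_insert, ← hY]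
  constructor
  · rintro ⟨i, rfl⟩
    refine Fin.cases ?_ (fun i => ?_) i
    · left; simp
    · right; exact ⟨i, by simp⟩
  · rintro (rfl | ⟨i, rfl⟩)
    · exact ⟨0, by simp⟩
    · exact ⟨i.succ, by simp⟩

/-! ### properties of `Psi` -/

lemma minor_eq (r : ℕ) (b v c : ℚ) (h1 : b + v + c = 1) (h2 : b * v + c * (b + v) = 0) :
    F r 0 b * F r 1 v - F r 1 b * F r 0 v = (v - b) * c ^ r := by
  have h3 : (1 - b) * (1 - v) = c ^ 2 := by
    have hc : c = 1 - b - v := by linarith
    subst hc
    linear_combination h2 + 0 * h1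
  have h4 : 1 - v - b = c := by linarith
  unfold F
  obtain ⟨n, rfl | rfl⟩ := Nat.even_or_odd' r
  · have e1 : (2 * n + 0) / 2 = n := by omega
    have e2 : (2 * n + 1) / 2 = n := by omega
    rw [e1, e2, pow_mul, ← h3, mul_pow]
    ring
  · have e1 : (2 * n + 1 + 0) / 2 = n := by omega
    have e2 : (2 * n + 1 + 1) / 2 = n + 1 := by omega
    rw [e1, e2, pow_succ (c) (2 * n), pow_mul, ← h3, mul_pow, ← h4]
    ring

lemma Psi_reduce (r : ℕ) (Y : Finset ℚ) (b v c : ℚ) (h1 : b + v + c = 1)
    (h2 : b * v + c * (b + v) = 0) (hbv : b ≠ v) (hb : b ∉ Y) (hv : v ∉ Y) :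
    Psi r (insert b (insert v Y)) =
      c ^ r * (-1) ^ Y.card * (∏ y ∈ Y, (y - c)) * Psi r Y := by
  obtain ⟨y, hy, hY⟩ := exists_enum Y
  have hy1 := cons_injective hy hY hv
  have hY1 := cons_image hY v
  have hb1 : b ∉ insert v Y := by
    simp [hbv, hb]
  have hy2 := cons_injective hy1 hY1 hb1
  have hY2 := cons_image hY1 b
  have e1 := Wd_eq_Psi r _ hy2
  have e2 := Wd_eq_Psi r _ hy
  rw [hY2] at e1
  rw [hY] at e2
  have hvc : v ^ 2 * (1 - v) = b ^ 2 * (1 - b) := by
    have hc : c = 1 - b - v := by linarith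
    subst hc
    linear_combination (v - b) * h2
  rw [Wd_reduce r b v (b ^ 2 * (1 - b)) y rfl hvc, minor_eq r b v c h1 h2, e2, Vd_cons,
    Vd_cons, Fin.prod_univ_succ] at e1
  simp only [Fin.cons_zero, Fin.cons_succ] at e1
  have hg : ∀ z : ℚ, z ^ 2 * (1 - z) - b ^ 2 * (1 - b) = (z - b) * ((z - v) * (-1 * (z - c))) := by
    intro z
    have hc : c = 1 - b - v := by linarith
    subst hc
    linear_combination (z - b) * h2
  have hprod : ∏ i, (y i ^ 2 * (1 - y i) - b ^ 2 * (1 - b)) =
      (∏ i, (y i - b)) * ((∏ i, (y i - v)) * ((-1) ^ Y.card * ∏ z ∈ Y, (z - c))) := by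
    rw [Finset.prod_congr rfl (fun i _ => hg (y i)), Finset.prod_mul_distrib,
      Finset.prod_mul_distrib, Finset.prod_mul_distrib, Finset.prod_const, Finset.card_univ,
      Fintype.card_fin, prod_enum hy hY (fun z => z - c)]
  rw [hprod] at e1
  have n1 : v - b ≠ 0 := sub_ne_zero.2 (Ne.symm hbv)
  have n2 : (∏ i, (y i - b)) ≠ 0 := by
    rw [prod_enum hy hY (fun z => z - b), Finset.prod_ne_zero_iff]
    intro z hz h
    apply hb
    rw [← sub_eq_zero.1 h]; exact hz
  have n3 : (∏ i, (y i - v)) ≠ 0 := by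
    rw [prod_enum hy hY (fun z => z - v), Finset.prod_ne_zero_iff]
    intro z hz h
    apply hv
    rw [← sub_eq_zero.1 h]; exact hz
  have n4 : Vd y ≠ 0 := Vd_ne_zero hy
  have n5 : (v - b) * (∏ i, (y i - b)) * (∏ i, (y i - v)) * Vd y ≠ 0 :=
    mul_ne_zero (mul_ne_zero (mul_ne_zero n1 n2) n3) n4
  apply mul_right_cancel₀ n5
  linear_combination - e1

lemma Psi_zero (r : ℕ) (Y : Finset ℚ) (h0 : (0 : ℚ) ∉ Y) :
    Psi r (insert 0 Y) = Psi (r + 1) Y := by
  obtain ⟨y, hy, hY⟩ := exists_enum Y
  have hy1 := cons_injective hy hY h0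
  have hY1 := cons_image hY 0
  have e1 := Wd_eq_Psi r _ hy1
  have e2 := Wd_eq_Psi (r + 1) _ hy
  rw [hY1, Wd_zero, Vd_cons] at e1
  rw [hY] at e2
  rw [e2] at e1
  have n1 : (∏ i, y i) ≠ 0 := by
    rw [prod_enum hy hY (fun z => z), Finset.prod_ne_zero_iff]
    intro z hz h
    apply h0
    rw [← h]; exact hz
  have n4 : Vd y ≠ 0 := Vd_ne_zero hy
  have h3 : (∏ i, (y i - 0)) = ∏ i, y i := by simp
  rw [h3] at e1
  apply mul_right_cancel₀ (mul_ne_zero n1 n4)
  linear_combination - e1

lemma Psi_even (n : ℕ) (Y : Finset ℚ) :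
    Psi (2 * n) Y = (∏ y ∈ Y, (1 - y) ^ n) * Psi 0 Y := by
  obtain ⟨y, hy, hY⟩ := exists_enum Y
  have e1 := Wd_eq_Psi (2 * n) _ hy
  have e2 := Wd_eq_Psi 0 _ hy
  rw [hY] at e1 e2
  rw [Wd_even, e2, prod_enum hy hY (fun z => (1 - z) ^ n)] at e1
  have n4 : Vd y ≠ 0 := Vd_ne_zero hy
  apply mul_right_cancel₀ n4
  linear_combination - e1

/-! ### the parametrisation -/

def Du (u : ℚ) : ℚ := u ^ 2 - u + 1
def vv (u : ℚ) : ℚ := u / Du u
def bb (u : ℚ) : ℚ := -(u - 1) / Du u
def cc (u : ℚ) : ℚ := u * (u - 1) / Du u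
def Aw (u a : ℚ) : ℚ := u * (u - 1) - a * Du u
def Bw (u a : ℚ) : ℚ := a * Du u + (u - 1)

lemma Du_pos (u : ℚ) : 0 < Du u := by
  unfold Du; nlinarith [sq_nonneg (u - 1), sq_nonneg u, sq_nonneg (2 * u - 1)]

lemma Du_ne (u : ℚ) : Du u ≠ 0 := (Du_pos u).ne'

lemma wheel1 (u : ℚ) : bb u + vv u + cc u = 1 := by
  have := Du_ne u
  unfold bb vv cc
  field_simp
  unfold Du
  ring

lemma wheel2 (u : ℚ) : bb u * vv u + cc u * (bb u + vv u) = 0 := by
  have := Du_ne u
  unfold bb vv cc
  field_simp
  ring

lemma vv_pos {u : ℚ} (h : 1 < u) : 0 < vv u := div_pos (by linarith) (Du_pos u)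

lemma bb_neg {u : ℚ} (h : 1 < u) : bb u < 0 := div_neg_of_neg_of_pos (by linarith) (Du_pos u)

lemma vv_inj {u w : ℚ} (hu : 1 < u) (hw : 1 < w) (h : vv u = vv w) : u = w := by
  unfold vv at h
  rw [div_eq_div_iff (Du_ne u) (Du_ne w)] at h
  unfold Du at h
  have h1 : (w - u) * (u * w - 1) = 0 := by linear_combination h
  have h2 : u * w - 1 ≠ 0 := by nlinarith
  have := (mul_eq_zero.1 h1).resolve_right h2
  linarith

lemma bb_inj {u w : ℚ} (hu : 1 < u) (hw : 1 < w) (hu2 : u < 2) (hw2 : w < 2)
    (h : bb u = bb w) : u = w := by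
  unfold bb at h
  rw [div_eq_div_iff (Du_ne u) (Du_ne w)] at h
  unfold Du at h
  have h1 : (u - w) * (1 - (u - 1) * (w - 1)) = 0 := by linear_combination - h
  have h2 : 1 - (u - 1) * (w - 1) ≠ 0 := by nlinarith
  have := (mul_eq_zero.1 h1).resolve_right h2
  linarith

lemma Aw_eq (u a : ℚ) : Aw u a = Du u * (cc u - a) := by
  have := Du_ne u
  unfold Aw cc
  field_simp

lemma Bw_bb_self (u : ℚ) : Bw u (bb u) = 0 := by
  have := Du_ne u
  unfold Bw bb
  field_simp
  ring

lemma Bw_K (u w : ℚ) (h : u ≠ w) : Bw w (bb u) * K u w = Du w * (vv w - cc u) := by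
  have h1 := Du_ne u
  have h2 := Du_ne w
  have h3 : w - u ≠ 0 := sub_ne_zero.2 (Ne.symm h)
  unfold Bw K vv cc bb
  field_simp
  unfold Du
  ring

/-! ### inhomogeneous sums -/

/-- inhomogeneous wavefunction sum with column parameters `as` -/
def S : List ℚ → Finset ℚ → ℚ
  | [], _ => 1
  | a :: as, U => ∑ u ∈ U, (as.map (Aw u)).prod * (∏ w ∈ U.erase u, Bw w a * K u w) *
      S as (U.erase u)

lemma S_cons (a : ℚ) (as : List ℚ) (U : Finset ℚ) :
    S (a :: as) U = ∑ u ∈ U, (as.map (Aw u)).prod * (∏ w ∈ U.erase u, Bw w a * K u w) *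
      S as (U.erase u) := rfl

lemma S_polyLe (as : List ℚ) (U : Finset ℚ) (N : ℕ) (hU : U.card = N + 1) :
    PolyLe N (fun X => S (X :: as) U) := by
  simp only [S_cons]
  apply PolyLe.sum
  intro u hu
  have h1 : PolyLe ((U.erase u).card * 1) (fun X => ∏ w ∈ U.erase u, Bw w X * K u w) := by
    apply PolyLe.prod
    intro w _
    have := (PolyLe.linear (Du w * K u w) ((w - 1) * K u w))
    convert this using 2
    unfold Bw
    ring
  have h2 := ((PolyLe.const 0 (as.map (Aw u)).prod).mul h1).mul (PolyLe.const 0 (S as (U.erase u)))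
  refine h2.mono ?_
  rw [Finset.card_erase_of_mem hu, hU]
  omega

/-- all points lie in the interval (1,2) -/
def Good (U : Finset ℚ) : Prop := ∀ u ∈ U, 1 < u ∧ u < 2

lemma Good.erase {U : Finset ℚ} (h : Good U) (u : ℚ) : Good (U.erase u) :=
  fun w hw => h w (Finset.mem_of_mem_erase hw)

lemma Good.image_card {U : Finset ℚ} (h : Good U) : (U.image vv).card = U.card :=
  Finset.card_image_of_injOn fun u hu w hw => vv_inj (h u hu).1 (h w hw).1

lemma list_prod_sub (as : List ℚ) (hn : as.Nodup) (c : ℚ) :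
    (as.map fun a => c - a).prod = (-1) ^ as.length * ∏ a ∈ as.toFinset, (a - c) := by
  induction as with
  | nil => simp
  | cons a as ih =>
    have h := List.nodup_cons.1 hn
    rw [List.map_cons, List.prod_cons, ih h.2, List.toFinset_cons,
      Finset.prod_insert (by simpa using h.1), List.length_cons, pow_succ]
    ring

lemma prod_Aw (as : List ℚ) (r : ℕ) (u : ℚ) (hn : as.Nodup) :
    ((as ++ List.replicate r 0).map (Aw u)).prod =
      Du u ^ (as.length + r) * ((-1) ^ as.length * (∏ a ∈ as.toFinset, (a - cc u))) * cc u ^ r := by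
  rw [← list_prod_sub as hn, List.map_append, List.prod_append, List.map_replicate,
    List.prod_replicate, Aw_eq, sub_zero, mul_pow, pow_add]
  have : (as.map (Aw u)).prod = Du u ^ as.length * (as.map fun a => cc u - a).prod := by
    clear hn
    induction as with
    | nil => simp
    | cons a as ih =>
      rw [List.map_cons, List.prod_cons, ih, List.map_cons, List.prod_cons, Aw_eq,
        List.length_cons, pow_succ]
      ring
  rw [this]
  ring

/-- the claimed evaluation -/
def Claim (as : List ℚ) (r : ℕ) : Prop :=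
  ∀ U : Finset ℚ, Good U → U.card = as.length + r → (∀ a ∈ as, a ∉ U.image vv) →
    S (as ++ List.replicate r 0) U * ∏ u ∈ U, Du u =
      (-1) ^ (U.card.choose 2) * (∏ u ∈ U, Du u) ^ U.card * Psi r (U.image vv ∪ as.toFinset)

lemma S_step (as : List ℚ) (r : ℕ) (hn : as.Nodup) (hpos : ∀ a ∈ as, 0 < a)
    (IH : Claim as r) (a : ℚ) (U : Finset ℚ) (hU : Good U)
    (hcard : U.card = as.length + r + 1) (hdis : ∀ a ∈ as, a ∉ U.image vv)
    (ha : a ∉ U.image vv ∪ as.toFinset) :
    S (a :: (as ++ List.replicate r 0)) U * ∏ u ∈ U, Du u =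
      (-1) ^ (U.card.choose 2) * (∏ u ∈ U, Du u) ^ U.card *
        Psi r (insert a (U.image vv ∪ as.toFinset)) := by
  set N := as.length + r with hN
  set s := as.length with hs
  set Y := U.image vv ∪ as.toFinset with hYdef
  have hdisj : Disjoint (U.image vv) as.toFinset := by
    rw [Finset.disjoint_right]
    intro x hx
    exact hdis x (by simpa using hx)
  have hsc : as.toFinset.card = s := List.toFinset_card_of_nodup hn
  have hYcard : Y.card = N + 1 + s := by
    rw [hYdef, Finset.card_union_of_disjoint hdisj, hU.image_card, hcard, hsc]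
  have hYpos : ∀ y ∈ Y, 0 < y := by
    intro y hy
    rw [hYdef, Finset.mem_union] at hy
    rcases hy with hy | hy
    · obtain ⟨u, hu, rfl⟩ := Finset.mem_image.1 hy
      exact vv_pos (hU u hu).1
    · exact hpos y (by simpa using hy)
  obtain ⟨y, hy, hY⟩ := exists_enum Y
  set G := ∏ u ∈ U, Du u with hG
  -- values of the determinant outside Y
  have hW : ∀ X, X ∉ Y → Wd r (Fin.cons X y : Fin (Y.card + 1) → ℚ) =
      Psi r (insert X Y) * ((∏ i, (y i - X)) * Vd y) := by
    intro X hX
    have := Wd_eq_Psi r _ (cons_injective hy hY hX)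
    rw [cons_image hY, Vd_cons] at this
    exact this
  -- polynomial identity
  have key : ∀ X, S (X :: (as ++ List.replicate r 0)) U * G * ((∏ i, (y i - X)) * Vd y) =
      (-1) ^ (U.card.choose 2) * G ^ U.card * Wd r (Fin.cons X y : Fin (Y.card + 1) → ℚ) := by
    have hf : PolyLe (N + Y.card) (fun X => S (X :: (as ++ List.replicate r 0)) U * G *
        ((∏ i, (y i - X)) * Vd y)) := by
      have h1 := S_polyLe (as ++ List.replicate r 0) U N hcard
      have h2 : PolyLe (Y.card * 1) (fun X => ∏ i : Fin Y.card, (y i - X)) := by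
        have := PolyLe.prod (Finset.univ : Finset (Fin Y.card)) (f := fun i X => y i - X) (d := 1)
          (fun i _ => by
            have := PolyLe.linear (-1) (y i)
            convert this using 2
            ring)
        simpa using this
      have h3 := (h1.mul (PolyLe.const 0 G)).mul (h2.mul (PolyLe.const 0 (Vd y)))
      refine h3.mono ?_
      omega
    have hg : PolyLe (N + Y.card) (fun X => (-1) ^ (U.card.choose 2) * G ^ U.card *
        Wd r (Fin.cons X y : Fin (Y.card + 1) → ℚ)) := by
      have h1 := (PolyLe.const 0 ((-1) ^ (U.card.choose 2) * G ^ U.card)).mul (PolyLe.Wd r y)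
      refine h1.mono ?_
      omega
    have hbb : (U.image bb).card = N + 1 := by
      rw [Finset.card_image_of_injOn, hcard]
      intro u hu w hw h
      exact bb_inj (hU u hu).1 (hU w hw).1 (hU u hu).2 (hU w hw).2 h
    have hdisj2 : Disjoint Y (U.image bb) := by
      rw [Finset.disjoint_left]
      intro x hx hx2
      obtain ⟨u, hu, rfl⟩ := Finset.mem_image.1 hx2
      exact absurd (hYpos _ hx) (not_lt.2 (bb_neg (hU u hu).1).le)
    refine PolyLe.eq_of_card hf hg (Y ∪ U.image bb) ?_ ?_
    · rw [Finset.card_union_of_disjoint hdisj2, hbb]; omega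
    · intro X hX
      rw [Finset.mem_union] at hX
      rcases hX with hX | hX
      · -- X in Y
        rw [← hY] at hX
        obtain ⟨i, -, hi⟩ := Finset.mem_image.1 hX
        have h0 : ∏ j, (y j - X) = 0 := Finset.prod_eq_zero (Finset.mem_univ i) (by rw [hi]; ring)
        rw [h0, ← hi, Wd_eq_zero_of_mem]
        ring
      · obtain ⟨u0, hu0, rfl⟩ := Finset.mem_image.1 hX
        have hu0g := hU u0 hu0
        have hbY : bb u0 ∉ Y := fun h => absurd (hYpos _ h) (not_lt.2 (bb_neg hu0g.1).le)
        rw [hW _ hbY]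
        -- the sum collapses
        have hS : S (bb u0 :: (as ++ List.replicate r 0)) U =
            ((as ++ List.replicate r 0).map (Aw u0)).prod *
              (∏ w ∈ U.erase u0, Bw w (bb u0) * K u0 w) *
              S (as ++ List.replicate r 0) (U.erase u0) := by
          rw [S_cons]
          refine Finset.sum_eq_single u0 ?_ ?_
          · intro u hu hne
            have : ∏ w ∈ U.erase u, Bw w (bb u0) * K u w = 0 := by
              apply Finset.prod_eq_zero (i := u0)
              · exact Finset.mem_erase.2 ⟨Ne.symm hne, hu0⟩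
              · rw [Bw_bb_self]; ring
            rw [this]; ring
          · intro h; exact absurd hu0 h
        have hprodB : ∏ w ∈ U.erase u0, Bw w (bb u0) * K u0 w =
            (∏ w ∈ U.erase u0, Du w) * ∏ w ∈ U.erase u0, (vv w - cc u0) := by
          rw [← Finset.prod_mul_distrib]
          refine Finset.prod_congr rfl fun w hw => ?_
          exact Bw_K u0 w (Ne.symm (Finset.ne_of_mem_erase hw))
        set U' := U.erase u0 with hU'
        have hU'card : U'.card = s + r := by
          rw [hU', Finset.card_erase_of_mem hu0, hcard]; omega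
        have hsub : ∀ x, x ∈ U'.image vv → x ∈ U.image vv := by
          intro x hx
          exact Finset.image_subset_image (Finset.erase_subset _ _) hx
        have hIH := IH U' (hU.erase u0) hU'card (fun a ha h => hdis a ha (hsub a h))
        set Y' := U'.image vv ∪ as.toFinset with hY'
        have hvnot : vv u0 ∉ U'.image vv := by
          intro h
          obtain ⟨w, hw, hwu⟩ := Finset.mem_image.1 h
          have : w = u0 := vv_inj (hU w (Finset.mem_of_mem_erase hw)).1 hu0g.1 hwu
          exact Finset.ne_of_mem_erase hw this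
        have hvY' : vv u0 ∉ Y' := by
          rw [hY', Finset.mem_union, not_or]
          refine ⟨hvnot, ?_⟩
          intro h
          exact hdis (vv u0) (by simpa using h) (Finset.mem_image_of_mem _ hu0)
        have hYins : Y = insert (vv u0) Y' := by
          rw [hYdef, hY', ← Finset.insert_union, ← Finset.image_insert, hU',
            Finset.insert_erase hu0]
        have hbY' : bb u0 ∉ Y' := by
          intro h; apply hbY; rw [hYins]; exact Finset.mem_insert_of_mem h
        have hbv : bb u0 ≠ vv u0 := by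
          have h1 := bb_neg hu0g.1
          have h2 := vv_pos hu0g.1
          intro h; rw [h] at h1; exact absurd h1 (not_lt.2 h2.le)
        have hdisj' : Disjoint (U'.image vv) as.toFinset :=
          Finset.disjoint_of_subset_left hsub hdisj
        have hY'card : Y'.card = s + r + s := by
          rw [hY', Finset.card_union_of_disjoint hdisj', (hU.erase u0).image_card, hsc, hU'card]
        have hprodY' : ∏ z ∈ Y', (z - cc u0) =
            (∏ w ∈ U', (vv w - cc u0)) * ∏ z ∈ as.toFinset, (z - cc u0) := by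
          rw [hY', Finset.prod_union hdisj', Finset.prod_image]
          intro x hx z hz h
          exact vv_inj (hU x (Finset.mem_of_mem_erase hx)).1 (hU z (Finset.mem_of_mem_erase hz)).1 h
        have hPsi : Psi r (insert (bb u0) Y) =
            cc u0 ^ r * (-1) ^ (s + r + s) * ((∏ w ∈ U', (vv w - cc u0)) *
              ∏ z ∈ as.toFinset, (z - cc u0)) * Psi r Y' := by
          rw [hYins, Psi_reduce r Y' (bb u0) (vv u0) (cc u0) (wheel1 u0) (wheel2 u0) hbv hbY' hvY',
            hY'card, hprodY']
        have hGG : G = Du u0 * ∏ w ∈ U', Du w := by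
          rw [hG, ← Finset.mul_prod_erase U Du hu0]
        rw [hPsi, hS, hprodB, prod_Aw as r u0 hn]
        rw [hU'card] at hIH
        rw [hcard]
        have hchoose : (N + 1).choose 2 = N.choose 2 + N := by
          rw [Nat.choose_succ_succ', Nat.choose_one_right]; ring
        have hNr : N = s + r := rfl
        rw [hchoose, hNr]
        set c := cc u0
        set Q1 := ∏ w ∈ U', (vv w - c)
        set Q2 := ∏ z ∈ as.toFinset, (z - c)
        set G' := ∏ w ∈ U', Du w
        set V := (∏ i, (y i - bb u0)) * Vd y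
        set T := S (as ++ List.replicate r 0) U'
        have hsq : ((-1 : ℚ)) ^ ((s + r).choose 2 + (s + r)) * (-1) ^ (s + r + s) =
            (-1) ^ s * (-1) ^ ((s + r).choose 2) := by
          rw [← pow_add, ← pow_add]
          have : (s + r).choose 2 + (s + r) + (s + r + s) = 2 * (s + r) + (s + (s + r).choose 2) := by
            ring
          rw [this, pow_add, pow_mul]
          norm_num
        calc Du u0 ^ (s + r) * ((-1) ^ s * Q2) * c ^ r * (G' * Q1) * T * G * V
            = Du u0 ^ (s + r) * ((-1) ^ s * Q2) * c ^ r * Q1 * (T * G') * G * V := by ring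
          _ = Du u0 ^ (s + r) * ((-1) ^ s * Q2) * c ^ r * Q1 *
              ((-1) ^ ((s + r).choose 2) * G' ^ (s + r) * Psi r Y') * G * V := by rw [hIH]
          _ = ((-1) ^ s * (-1) ^ ((s + r).choose 2)) * ((Du u0 * G') ^ (s + r)) * G *
              (c ^ r * (Q1 * Q2) * Psi r Y' * V) := by rw [mul_pow]; ring
          _ = (((-1 : ℚ)) ^ ((s + r).choose 2 + (s + r)) * (-1) ^ (s + r + s)) * G ^ (s + r) * G *
              (c ^ r * (Q1 * Q2) * Psi r Y' * V) := by rw [hsq, ← hGG]
          _ = _ := by rw [pow_succ G (s + r)]; ring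
  have h1 := key a
  rw [hW a ha] at h1
  have n1 : ((∏ i, (y i - a)) * Vd y) ≠ 0 := by
    refine mul_ne_zero ?_ (Vd_ne_zero hy)
    rw [prod_enum hy hY (fun z => z - a), Finset.prod_ne_zero_iff]
    intro z hz h
    apply ha
    rw [← sub_eq_zero.1 h]; exact hz
  apply mul_right_cancel₀ n1
  rw [h1]
  ring

/-- the homogeneous zero case -/
lemma claim_nil (r : ℕ) : Claim [] r := by
  induction r with
  | zero =>
    intro U _ hcard _
    have : U = ∅ := by rw [← Finset.card_eq_zero]; simpa using hcard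
    subst this
    have hP : Psi 0 (∅ : Finset ℚ) = 1 := by
      rw [Psi_eq_of_card 0 ∅ 0 rfl]
      simp [Wd, Vd]
    simp [S, hP]
  | succ r ih =>
    intro U hU hcard hd
    have hc : U.card = ([] : List ℚ).length + r + 1 := by rw [hcard]; simp
    have h0 : (0 : ℚ) ∉ U.image vv := by
      intro h
      obtain ⟨u, hu, hu0⟩ := Finset.mem_image.1 h
      exact absurd hu0 (vv_pos (hU u hu).1).ne'
    have := S_step [] r List.nodup_nil (by simp) ih 0 U hU hc (by simp) (by simpa using h0)
    simp only [List.nil_append, List.toFinset_nil, Finset.union_empty] at this ⊢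
    rw [List.replicate_succ, this, Psi_zero r _ h0]

/-- the general case -/
theorem claim_all (as : List ℚ) (r : ℕ) (hn : as.Nodup) (hpos : ∀ a ∈ as, 0 < a) :
    Claim as r := by
  induction as with
  | nil => exact claim_nil r
  | cons a as ih =>
    have hn' := List.nodup_cons.1 hn
    have hpos' : ∀ x ∈ as, 0 < x := fun x hx => hpos x (List.mem_cons_of_mem _ hx)
    intro U hU hcard hd
    have hc : U.card = as.length + r + 1 := by rw [hcard, List.length_cons]; ring
    have := S_step as r hn'.2 hpos' (ih hn'.2 hpos') a U hU hc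
      (fun x hx => hd x (List.mem_cons_of_mem _ hx)) (by
        rw [Finset.mem_union, not_or]
        exact ⟨hd a List.mem_cons_self, by simpa using hn'.1⟩)
    rw [List.cons_append, this, List.toFinset_cons, Finset.union_insert]

end Pool.Agent.helper40.MT
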