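import Mathlib

/-! Monotone triangles and the monotone triangle polynomial. -/

namespace Pool.Agent.helper40.MT

/-- `a` is a monotone triangle with bottom row `k = (k 0, …, k (n-1))`.
The rows are numbered `i = 0, …, n-1` from top to bottom and row `i` has the entries
`a i 0, …, a i i`.  The function `a` is required to be zero outside the triangle, so that
every triangle corresponds to exactly one function. -/
def IsMonotoneTriangle (n : ℕ) (k : Fin n → ℤ) (a : ℕ → ℕ → ℤ) : Prop :=
  (∀ i j, ¬ (i < n ∧ j ≤ i) → a i j = 0) ∧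
  (∀ j : Fin n, a (n - 1) j = k j) ∧
  (∀ i j, i < n → j + 1 ≤ i → a i j < a i (j + 1)) ∧
  (∀ i j, i + 1 < n → j ≤ i → a (i + 1) j ≤ a i j ∧ a i j ≤ a (i + 1) (j + 1))

/-- `p` is a polynomial which counts the monotone triangles with bottom row `k`: for every
strictly increasing integer vector `k` of length `n` there are only finitely many such triangles
and their number is `p (k 0, …, k (n-1))`. -/
def IsMTPoly (n : ℕ) (p : MvPolynomial (Fin n) ℚ) : Prop :=
  ∀ k : Fin n → ℤ, StrictMono k →
    Finite {a : ℕ → ℕ → ℤ // IsMonotoneTriangle n k a} ∧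
      MvPolynomial.eval (fun i => (k i : ℚ)) p =
        (Nat.card {a : ℕ → ℕ → ℤ // IsMonotoneTriangle n k a} : ℚ)

end Pool.Agent.helper40.MT
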