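import Mathlib
import Pool.Agent.helper40.MT.Defs
import Pool.Agent.helper40.MT.Wave

/-! Counting monotone triangles row by row. -/

namespace Pool.Agent.helper40.MT

open Finset

/-- rows interlacing with `k`, with lower bound `lo` for the first entry -/
noncomputable def RF {n : ℕ} (lo : ℤ) (k : Fin n → ℤ) : Finset (Fin n → ℤ) := by
  classical
  exact (Fintype.piFinset fun i : Fin n =>
    Finset.Icc ((Fin.cons lo k : Fin (n + 1) → ℤ) i.castSucc) (k i)).filter StrictMono

lemma mem_RF {n : ℕ} (lo : ℤ) (k l : Fin n → ℤ) :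
    l ∈ RF lo k ↔ (∀ i : Fin n, (Fin.cons lo k : Fin (n + 1) → ℤ) i.castSucc ≤ l i ∧ l i ≤ k i) ∧
      StrictMono l := by
  unfold RF
  rw [Finset.mem_filter, Fintype.mem_piFinset]
  simp only [Finset.mem_Icc]

/-- strict monotonicity of a vector with a new first entry -/
lemma strictMono_cons {n : ℕ} (a : ℤ) (l : Fin n → ℤ) :
    StrictMono (Fin.cons a l : Fin (n + 1) → ℤ) ↔ (∀ i, a < l i) ∧ StrictMono l := by
  constructor
  · intro h
    refine ⟨fun i => ?_, fun i j hij => ?_⟩
    · have := h (Fin.succ_pos i)
      simpa using this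
    · have := h (Fin.succ_lt_succ_iff.2 hij)
      simpa using this
  · rintro ⟨h1, h2⟩ i j hij
    revert hij
    refine Fin.cases ?_ (fun i => ?_) i
    · refine Fin.cases ?_ (fun j => ?_) j
      · intro h; exact absurd h (lt_irrefl _)
      · intro _; simpa using h1 j
    · refine Fin.cases ?_ (fun j => ?_) j
      · intro h; exact absurd h (by simp)
      · intro h
        simp only [Fin.cons_succ]
        exact h2 (Fin.succ_lt_succ_iff.1 h)

lemma Rsum_eq_sum {n : ℕ} (f : List ℤ → ℚ) (lo : ℤ) (k : Fin n → ℤ)
    (hk : StrictMono k) (hlo : ∀ i, lo ≤ k i) :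
    Rsum f lo (List.ofFn k) = ∑ l ∈ RF lo k, f (List.ofFn l) := by
  induction n generalizing f lo with
  | zero =>
    have : RF lo k = {Fin.elim0} := by
      ext l
      rw [mem_RF, Finset.mem_singleton]
      constructor
      · intro _; funext i; exact i.elim0
      · rintro rfl; exact ⟨fun i => i.elim0, fun i => i.elim0⟩
    rw [this, Finset.sum_singleton]
    simp [Rsum]
  | succ n ih =>
    classical
    have hk0 : ∀ i : Fin n, k 0 < k i.succ := fun i => hk (Fin.succ_pos i)
    have htail : StrictMono (fun i : Fin n => k i.succ) :=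
      fun i j hij => hk (Fin.succ_lt_succ_iff.2 hij)
    have hset : RF lo k =
        ((Finset.Ico lo (k 0)) ×ˢ RF (k 0) (fun i : Fin n => k i.succ)).image
          (fun p => (Fin.cons p.1 p.2 : Fin (n + 1) → ℤ)) ∪
        (({k 0} : Finset ℤ) ×ˢ RF (k 0 + 1) (fun i : Fin n => k i.succ)).image
          (fun p => (Fin.cons p.1 p.2 : Fin (n + 1) → ℤ)) := by
      ext l
      simp only [Finset.mem_union, Finset.mem_image, Finset.mem_product, Finset.mem_Ico,
        Finset.mem_singleton, Prod.exists, mem_RF]
      constructor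
      · rintro ⟨h1, h2⟩
        have hl : l = Fin.cons (l 0) (fun i => l i.succ) := by
          funext i; refine Fin.cases ?_ (fun i => ?_) i <;> simp
        have hl0 := h1 0
        simp only [Fin.castSucc_zero, Fin.cons_zero] at hl0
        have hls : ∀ i : Fin n, k i.castSucc ≤ l i.succ ∧ l i.succ ≤ k i.succ := by
          intro i
          have := h1 i.succ
          rw [← Fin.succ_castSucc, Fin.cons_succ] at this
          exact this
        rw [hl, strictMono_cons] at h2
        have hcase : ∀ i : Fin n, (Fin.cons (k 0) (fun i : Fin n => k i.succ) :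
            Fin (n + 1) → ℤ) i.castSucc = k i.castSucc := by
          intro i
          have : (Fin.cons (k 0) (fun i : Fin n => k i.succ) : Fin (n + 1) → ℤ) = k := by
            funext i; refine Fin.cases ?_ (fun i => ?_) i <;> simp
          rw [this]
        by_cases hlt : l 0 < k 0
        · left
          refine ⟨l 0, fun i => l i.succ, ⟨⟨hl0.1, hlt⟩, fun i => ?_, h2.2⟩, hl.symm⟩
          rw [hcase]; exact hls i
        · right
          have heq : l 0 = k 0 := le_antisymm hl0.2 (not_lt.1 hlt)
          refine ⟨l 0, fun i => l i.succ, ⟨heq, fun i => ⟨?_, (hls i).2⟩, h2.2⟩, hl.symm⟩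
          have hcase2 : (Fin.cons (k 0 + 1) (fun i : Fin n => k i.succ) :
              Fin (n + 1) → ℤ) i.castSucc ≤ max (k 0 + 1) (k i.castSucc) := by
            generalize i.castSucc = j
            refine Fin.cases ?_ (fun j => ?_) j
            · simp
            · simp
          refine hcase2.trans (max_le ?_ (hls i).1)
          have h9 : k 0 < l i.succ := by
            have := h2.1 i
            rwa [heq] at this
          exact h9
      · rintro (⟨a, l', ⟨⟨ha1, ha2⟩, h1, h2⟩, rfl⟩ | ⟨a, l', ⟨ha, h1, h2⟩, rfl⟩)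
        · have hlow : ∀ i : Fin n, k 0 ≤ l' i := by
            intro i
            refine le_trans ?_ (h1 i).1
            generalize i.castSucc = j
            refine Fin.cases ?_ (fun j => ?_) j
            · simp
            · simpa using (hk0 j).le
          refine ⟨fun i => ?_, ?_⟩
          · refine Fin.cases ?_ (fun i => ?_) i
            · simpa using ⟨ha1, ha2.le⟩
            · have := h1 i
              rw [← Fin.succ_castSucc, Fin.cons_succ, Fin.cons_succ]
              refine ⟨?_, this.2⟩
              have h3 : (Fin.cons (k 0) (fun i : Fin n => k i.succ) : Fin (n + 1) → ℤ) = k := by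
                funext i; refine Fin.cases ?_ (fun i => ?_) i <;> simp
              rw [h3] at this
              exact this.1
          · rw [strictMono_cons]
            exact ⟨fun i => lt_of_lt_of_le ha2 (hlow i), h2⟩
        · have hlow : ∀ i : Fin n, k 0 + 1 ≤ l' i := by
            intro i
            refine le_trans ?_ (h1 i).1
            generalize i.castSucc = j
            refine Fin.cases ?_ (fun j => ?_) j
            · simp
            · simpa using hk0 j
          subst ha
          refine ⟨fun i => ?_, ?_⟩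
          · refine Fin.cases ?_ (fun i => ?_) i
            · simpa using hlo 0
            · have := h1 i
              rw [← Fin.succ_castSucc, Fin.cons_succ, Fin.cons_succ]
              refine ⟨?_, this.2⟩
              have h3 : k i.castSucc ≤ (Fin.cons (k 0 + 1) (fun i : Fin n => k i.succ) :
                  Fin (n + 1) → ℤ) i.castSucc := by
                generalize i.castSucc = j
                refine Fin.cases ?_ (fun j => ?_) j
                · simp
                · simp
              exact h3.trans this.1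
          · rw [strictMono_cons]
            exact ⟨fun i => by have := hlow i; omega, h2⟩
    have hinj : Function.Injective (fun p : ℤ × (Fin n → ℤ) =>
        (Fin.cons p.1 p.2 : Fin (n + 1) → ℤ)) := by
      rintro ⟨a, l⟩ ⟨b, m⟩ h
      have h' : (Fin.cons a l : Fin (n + 1) → ℤ) = Fin.cons b m := h
      have := Fin.cons_injective2 h'
      rw [this.1, this.2]
    have hdisj : Disjoint
        (((Finset.Ico lo (k 0)) ×ˢ RF (k 0) (fun i : Fin n => k i.succ)).image
          (fun p => (Fin.cons p.1 p.2 : Fin (n + 1) → ℤ)))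
        ((({k 0} : Finset ℤ) ×ˢ RF (k 0 + 1) (fun i : Fin n => k i.succ)).image
          (fun p => (Fin.cons p.1 p.2 : Fin (n + 1) → ℤ))) := by
      rw [Finset.disjoint_image hinj, Finset.disjoint_left]
      rintro ⟨a, l⟩ h1 h2
      rw [Finset.mem_product, Finset.mem_Ico] at h1
      rw [Finset.mem_product, Finset.mem_singleton] at h2
      have h3 := h1.1.2
      have h4 := h2.1
      simp only at h3 h4
      omega
    rw [hset, Finset.sum_union hdisj, Finset.sum_image (fun a _ b _ h => hinj h),
      Finset.sum_image (fun a _ b _ h => hinj h), Finset.sum_product, Finset.sum_product,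
      Finset.sum_singleton, List.ofFn_succ]
    simp only [Rsum]
    rw [ih (fun l' => f (k 0 :: l')) (k 0 + 1) (fun i => k i.succ) htail (fun i => hk0 i)]
    congr 1
    · refine Finset.sum_congr rfl fun a _ => ?_
      rw [ih (fun l' => f (a :: l')) (k 0) (fun i => k i.succ) htail (fun i => (hk0 i).le)]
      refine Finset.sum_congr rfl fun l _ => ?_
      rw [List.ofFn_succ]; simp
    · refine Finset.sum_congr rfl fun l _ => ?_
      rw [List.ofFn_succ]; simp

/-- the rows interlacing with `k` -/
noncomputable def Rset {n : ℕ} (k : Fin (n + 1) → ℤ) : Finset (Fin n → ℤ) :=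
  RF (k 0) (fun i => k i.succ)

lemma mem_Rset {n : ℕ} (k : Fin (n + 1) → ℤ) (l : Fin n → ℤ) :
    l ∈ Rset k ↔ (∀ i : Fin n, k i.castSucc ≤ l i ∧ l i ≤ k i.succ) ∧ StrictMono l := by
  unfold Rset
  rw [mem_RF]
  have h3 : (Fin.cons (k 0) (fun i : Fin n => k i.succ) : Fin (n + 1) → ℤ) = k := by
    funext i; refine Fin.cases ?_ (fun i => ?_) i <;> simp
  rw [h3]

lemma Rsum_eq_Rset {n : ℕ} (f : List ℤ → ℚ) (k : Fin (n + 1) → ℤ) (hk : StrictMono k) :
    Rsum f (k 0) (List.ofFn fun i => k i.succ) = ∑ l ∈ Rset k, f (List.ofFn l) := by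
  unfold Rset
  refine Rsum_eq_sum f (k 0) _ (fun i j hij => hk (Fin.succ_lt_succ_iff.2 hij)) (fun i => ?_)
  exact (hk (Fin.succ_pos i)).le

/-- add a bottom row -/
def addrow (n : ℕ) (k : Fin (n + 1) → ℤ) (a : ℕ → ℕ → ℤ) : ℕ → ℕ → ℤ := fun i j =>
  if i = n then (if h : j < n + 1 then k ⟨j, h⟩ else 0) else a i j

lemma row_strict {m : ℕ} {f : ℕ → ℤ} (h : ∀ j, j + 1 ≤ m → f j < f (j + 1)) :
    ∀ {j j' : ℕ}, j < j' → j' ≤ m → f j < f j' := by
  intro j j' hjj'
  induction j' with
  | zero => intro _; omega
  | succ j' ih =>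
    intro hm
    rcases Nat.lt_succ_iff_lt_or_eq.1 hjj' with h1 | h1
    · exact (ih h1 (by omega)).trans (h j' hm)
    · subst h1; exact h j hm

lemma addrow_isMT {n : ℕ} {k : Fin (n + 1) → ℤ} (hk : StrictMono k) {l : Fin n → ℤ}
    (hl : l ∈ Rset k) {a : ℕ → ℕ → ℤ} (ha : IsMonotoneTriangle n l a) :
    IsMonotoneTriangle (n + 1) k (addrow n k a) := by
  obtain ⟨h1, h2, h3, h4⟩ := ha
  rw [mem_Rset] at hl
  refine ⟨?_, ?_, ?_, ?_⟩
  · intro i j hij
    unfold addrow
    by_cases hi : i = n
    · rw [if_pos hi, dif_neg]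
      intro h; apply hij; omega
    · rw [if_neg hi]
      apply h1
      intro h; apply hij; omega
  · intro j
    unfold addrow
    rw [if_pos (by omega), dif_pos j.2]
  · intro i j hi hj
    unfold addrow
    by_cases hin : i = n
    · rw [if_pos hin, if_pos hin, dif_pos (by omega), dif_pos (by omega)]
      exact hk (by simp)
    · rw [if_neg hin, if_neg hin]
      exact h3 i j (by omega) hj
  · intro i j hi hj
    unfold addrow
    by_cases hin : i + 1 = n
    · rw [if_pos hin, if_pos hin, if_neg (by omega), dif_pos (by omega), dif_pos (by omega)]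
      have hjn : j < n := by omega
      have h5 := h2 ⟨j, hjn⟩
      have h6 : n - 1 = i := by omega
      rw [h6] at h5
      simp only at h5
      rw [h5]
      exact hl.1 ⟨j, hjn⟩
    · rw [if_neg hin, if_neg hin, if_neg (by omega)]
      exact h4 i j (by omega) hj

lemma addrow_inj {n : ℕ} {k : Fin (n + 1) → ℤ} {l l' : Fin n → ℤ} {a a' : ℕ → ℕ → ℤ}
    (ha : IsMonotoneTriangle n l a) (ha' : IsMonotoneTriangle n l' a')
    (h : addrow n k a = addrow n k a') : l = l' ∧ a = a' := by
  have haa : a = a' := by
    funext i j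
    by_cases hi : i = n
    · rw [ha.1 i j (by omega), ha'.1 i j (by omega)]
    · have := congrFun (congrFun h i) j
      unfold addrow at this
      rwa [if_neg hi, if_neg hi] at this
  refine ⟨?_, haa⟩
  funext j
  rw [← ha.2.1 j, ← ha'.2.1 j, haa]

lemma addrow_surj {n : ℕ} {k : Fin (n + 1) → ℤ} {b : ℕ → ℕ → ℤ}
    (hb : IsMonotoneTriangle (n + 1) k b) :
    ∃ l ∈ Rset k, ∃ a, IsMonotoneTriangle n l a ∧ addrow n k a = b := by
  obtain ⟨h1, h2, h3, h4⟩ := hb
  refine ⟨fun j => b (n - 1) j, ?_, fun i j => if i = n then 0 else b i j, ?_, ?_⟩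
  · rw [mem_Rset]
    constructor
    · intro i
      have hi := i.2
      have h5 := h4 (n - 1) i (by omega) (by omega)
      have h6 : n - 1 + 1 = n := by omega
      rw [h6] at h5
      have h7 := h2 i.castSucc
      have h8 := h2 i.succ
      simp only [Nat.add_sub_cancel, Fin.val_castSucc, Fin.val_succ] at h7 h8
      rw [h7, h8] at h5
      exact h5
    · intro i j hij
      have hj := j.2
      refine row_strict (m := n - 1) (f := fun j => b (n - 1) j) ?_ hij (by omega)
      intro j hj'
      exact h3 (n - 1) j (by omega) hj'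
  · refine ⟨?_, ?_, ?_, ?_⟩
    · intro i j hij
      show (if i = n then (0 : ℤ) else b i j) = 0
      by_cases hi : i = n
      · rw [if_pos hi]
      · rw [if_neg hi]
        apply h1
        intro h; apply hij; omega
    · intro j
      have := j.2
      show (if n - 1 = n then (0 : ℤ) else b (n - 1) j) = b (n - 1) j
      rw [if_neg (by omega)]
    · intro i j hi hj
      show (if i = n then (0 : ℤ) else b i j) < (if i = n then (0 : ℤ) else b i (j + 1))
      rw [if_neg (by omega), if_neg (by omega)]
      exact h3 i j (by omega) hj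
    · intro i j hi hj
      show (if i + 1 = n then (0 : ℤ) else b (i + 1) j) ≤ (if i = n then (0 : ℤ) else b i j) ∧
        (if i = n then (0 : ℤ) else b i j) ≤ (if i + 1 = n then (0 : ℤ) else b (i + 1) (j + 1))
      rw [if_neg (by omega), if_neg (by omega), if_neg (by omega)]
      exact h4 i j (by omega) hj
  · funext i j
    unfold addrow
    by_cases hi : i = n
    · rw [if_pos hi]
      by_cases hj : j < n + 1
      · rw [dif_pos hj]
        have := h2 ⟨j, hj⟩
        simp only [Nat.add_sub_cancel] at this
        rw [← this, hi]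
      · rw [dif_neg hj, h1 i j (by omega)]
    · rw [if_neg hi]
      show (if i = n then (0 : ℤ) else b i j) = b i j
      rw [if_neg hi]

/-- the type of monotone triangles -/
abbrev MTri (n : ℕ) (k : Fin n → ℤ) := {a : ℕ → ℕ → ℤ // IsMonotoneTriangle n k a}

noncomputable def triEquiv {n : ℕ} (k : Fin (n + 1) → ℤ) (hk : StrictMono k) :
    (Σ l : {l // l ∈ Rset k}, MTri n l.1) ≃ MTri (n + 1) k :=
  Equiv.ofBijective (fun p => ⟨addrow n k p.2.1, addrow_isMT hk p.1.2 p.2.2⟩) (by
    constructor
    · rintro ⟨⟨l, hl⟩, ⟨a, ha⟩⟩ ⟨⟨l', hl'⟩, ⟨a', ha'⟩⟩ h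
      have h' : addrow n k a = addrow n k a' := congrArg Subtype.val h
      obtain ⟨rfl, rfl⟩ := addrow_inj ha ha' h'
      rfl
    · rintro ⟨b, hb⟩
      obtain ⟨l, hl, a, ha, hab⟩ := addrow_surj hb
      exact ⟨⟨⟨l, hl⟩, ⟨a, ha⟩⟩, Subtype.ext hab⟩)

lemma MTri_finite {n : ℕ} (k : Fin n → ℤ) (hk : StrictMono k) : Finite (MTri n k) := by
  induction n with
  | zero =>
    have : Subsingleton (MTri 0 k) := by
      constructor
      rintro ⟨a, ha⟩ ⟨b, hb⟩
      apply Subtype.ext
      funext i j
      show a i j = b i j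
      rw [ha.1 i j (by omega), hb.1 i j (by omega)]
    infer_instance
  | succ n ih =>
    have : ∀ l : {l // l ∈ Rset k}, Finite (MTri n l.1) := fun l =>
      ih l.1 ((mem_Rset k l.1).1 l.2).2
    exact Finite.of_equiv _ (triEquiv k hk)

lemma card_zero (k : Fin 0 → ℤ) : Nat.card (MTri 0 k) = 1 := by
  rw [Nat.card_eq_one_iff_unique]
  constructor
  · constructor
    rintro ⟨a, ha⟩ ⟨b, hb⟩
    apply Subtype.ext
    funext i j
    show a i j = b i j
    rw [ha.1 i j (by omega), hb.1 i j (by omega)]
  · exact ⟨⟨fun _ _ => 0, by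
      refine ⟨fun _ _ _ => rfl, fun j => j.elim0, fun i j hi => absurd hi (by omega),
        fun i j hi => absurd hi (by omega)⟩⟩⟩

lemma card_succ {n : ℕ} (k : Fin (n + 1) → ℤ) (hk : StrictMono k) :
    Nat.card (MTri (n + 1) k) = ∑ l ∈ Rset k, Nat.card (MTri n l) := by
  have : ∀ l : {l // l ∈ Rset k}, Finite (MTri n l.1) := fun l =>
      MTri_finite l.1 ((mem_Rset k l.1).1 l.2).2
  rw [← Nat.card_congr (triEquiv k hk), Nat.card_sigma]
  exact Finset.sum_coe_sort (Rset k) (fun l => Nat.card (MTri n l))

end Pool.Agent.helper40.MT
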