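import Mathlib
import Pool.Agent.helper40.MT.Wave
import Pool.Agent.helper40.MT.Det

/-! Confluent limits of the wavefunction sums. -/

namespace Pool.Agent.helper40.MT

open Finset Matrix Filter Topology

/-- sign of a permutation as a rational number -/
def sg {n : ℕ} (σ : Equiv.Perm (Fin n)) : ℚ := ((Equiv.Perm.sign σ : ℤ) : ℚ)

/-! ### decomposition of the sum over permutations -/

def permG {n : ℕ} (p : Fin (n + 1) × Equiv.Perm (Fin n)) : Equiv.Perm (Fin (n + 1)) :=
  (Fin.cycleRange p.1).symm * Equiv.Perm.decomposeFin.symm (0, p.2)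

lemma permG_zero {n : ℕ} (p : Fin (n + 1) × Equiv.Perm (Fin n)) : permG p 0 = p.1 := by
  unfold permG
  rw [Equiv.Perm.mul_apply, Equiv.Perm.decomposeFin_symm_apply_zero, Fin.cycleRange_symm_zero]

lemma permG_succ {n : ℕ} (p : Fin (n + 1) × Equiv.Perm (Fin n)) (i : Fin n) :
    permG p i.succ = p.1.succAbove (p.2 i) := by
  unfold permG
  rw [Equiv.Perm.mul_apply, Equiv.Perm.decomposeFin_symm_apply_succ, Equiv.swap_self,
    Equiv.refl_apply, Fin.cycleRange_symm_succ]

lemma permG_bij {n : ℕ} : Function.Bijective (permG (n := n)) := by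
  rw [Fintype.bijective_iff_injective_and_card]
  constructor
  · rintro ⟨j, τ⟩ ⟨j', τ'⟩ h
    have h1 : j = j' := by
      have := congrArg (fun σ => σ 0) h
      simpa [permG_zero] using this
    subst h1
    have h2 : τ = τ' := by
      ext i
      have := congrArg (fun σ : Equiv.Perm (Fin (n + 1)) => σ i.succ) h
      simp only [permG_succ] at this
      have := Fin.succAbove_right_injective this
      rw [this]
    rw [h2]
  · rw [Fintype.card_prod, Fintype.card_perm, Fintype.card_perm, Fintype.card_fin,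
      Fintype.card_fin, Nat.factorial_succ]

lemma sg_permG {n : ℕ} (p : Fin (n + 1) × Equiv.Perm (Fin n)) :
    sg (permG p) = (-1) ^ (p.1 : ℕ) * sg p.2 := by
  unfold sg permG
  rw [Equiv.Perm.sign_mul, Equiv.Perm.sign_symm, Fin.sign_cycleRange,
    Equiv.Perm.decomposeFin.symm_sign]
  simp

lemma comp_permG {n : ℕ} (u : Fin (n + 1) → ℚ) (p : Fin (n + 1) × Equiv.Perm (Fin n)) :
    u ∘ permG p = Fin.cons (u p.1) ((p.1.removeNth u) ∘ p.2) := by
  funext i
  refine Fin.cases ?_ (fun i => ?_) i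
  · simp [permG_zero]
  · simp only [Function.comp_apply, permG_succ, Fin.cons_succ]
    rfl

lemma perm_sum_succ {n : ℕ} (Φ : (Fin (n + 1) → ℚ) → ℚ) (u : Fin (n + 1) → ℚ) :
    ∑ σ : Equiv.Perm (Fin (n + 1)), sg σ * Φ (u ∘ σ) =
      ∑ j : Fin (n + 1), (-1) ^ (j : ℕ) * ∑ τ : Equiv.Perm (Fin n),
        sg τ * Φ (Fin.cons (u j) ((j.removeNth u) ∘ τ)) := by
  rw [← Function.Bijective.sum_comp permG_bij, Fintype.sum_prod_type]
  refine Finset.sum_congr rfl fun j _ => ?_
  rw [Finset.mul_sum]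
  refine Finset.sum_congr rfl fun τ _ => ?_
  rw [sg_permG, comp_permG]
  ring

lemma Vd_remove {n : ℕ} (u : Fin (n + 1) → ℚ) (j : Fin (n + 1)) :
    Vd u = (-1) ^ (j : ℕ) * ((∏ i, (j.removeNth u i - u j)) * Vd (j.removeNth u)) := by
  have h := Vd_comp_perm u (permG (j, 1))
  have h2 : u ∘ permG (j, 1) = Fin.cons (u j) (j.removeNth u) := by
    rw [comp_permG]; rfl
  rw [h2, Vd_cons] at h
  have h3 : ((Equiv.Perm.sign (permG (j, (1 : Equiv.Perm (Fin n)))) : ℤ) : ℚ) =
      (-1) ^ (j : ℕ) := by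
    have := sg_permG (j, (1 : Equiv.Perm (Fin n)))
    unfold sg at this
    rw [this]; simp
  rw [h3] at h
  rw [h, ← mul_assoc, ← pow_add, ← two_mul, pow_mul]
  norm_num

/-! ### the wavefunction sum as a sum over permutations -/

/-- the kernel product -/
def kp {R : Type*} [CommRing R] {n : ℕ} (x : Fin n → R) : R :=
  ∏ i, ∏ j ∈ Finset.Ioi i, (1 - x i + x i * x j)

lemma kp_cons {n : ℕ} (a : ℚ) (y : Fin n → ℚ) :
    kp (Fin.cons a y : Fin (n + 1) → ℚ) = (∏ i, (1 - a + a * y i)) * kp y := by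
  unfold kp
  rw [Fin.prod_univ_succ, Fin.prod_Ioi_zero]
  simp only [Fin.cons_zero, Fin.cons_succ, Fin.prod_Ioi_succ]

lemma image_erase {n : ℕ} (u : Fin (n + 1) → ℚ) (hu : Function.Injective u) (j : Fin (n + 1)) :
    (Finset.univ.image u).erase (u j) = Finset.univ.image (j.removeNth u) := by
  ext x
  simp only [Finset.mem_erase, Finset.mem_image, Finset.mem_univ, true_and]
  constructor
  · rintro ⟨h1, i, rfl⟩
    have hij : i ≠ j := fun h => h1 (by rw [h])
    obtain ⟨k, rfl⟩ := Fin.exists_succAbove_eq hij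
    exact ⟨k, rfl⟩
  · rintro ⟨i, rfl⟩
    refine ⟨?_, j.succAbove i, rfl⟩
    intro h
    exact Fin.succAbove_ne j i (hu h)

lemma removeNth_injective {n : ℕ} {u : Fin (n + 1) → ℚ} (hu : Function.Injective u)
    (j : Fin (n + 1)) : Function.Injective (j.removeNth u) := by
  intro a b h
  exact Fin.succAbove_right_injective (hu h)

lemma Z_eq_perm {n : ℕ} (φ : Fin n → ℚ → ℚ) (u : Fin n → ℚ) (hu : Function.Injective u) :
    Z (List.ofFn φ) (Finset.univ.image u) * Vd u =
      ∑ σ : Equiv.Perm (Fin n), sg σ * ((∏ i, φ i (u (σ i))) * kp (u ∘ σ)) := by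
  induction n with
  | zero =>
    simp [Z, Vd, kp, sg, Matrix.vandermonde]
  | succ n ih =>
    have h := perm_sum_succ (fun x => (∏ i, φ i (x i)) * kp x) u
    simp only [Function.comp_apply] at h
    rw [h, List.ofFn_succ, Z_cons, Finset.sum_image (fun a _ b _ h => hu h), Finset.sum_mul]
    refine Finset.sum_congr rfl fun j _ => ?_
    rw [image_erase u hu j, Finset.prod_image (fun a _ b _ h => removeNth_injective hu j h),
      Vd_remove u j]
    have ih' := ih (fun i => φ i.succ) (j.removeNth u) (removeNth_injective hu j)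
    have e1 : ∀ τ : Equiv.Perm (Fin n), sg τ * ((∏ i, φ i ((Fin.cons (u j)
        ((j.removeNth u) ∘ τ) : Fin (n + 1) → ℚ) i)) *
        kp (Fin.cons (u j) ((j.removeNth u) ∘ τ) : Fin (n + 1) → ℚ)) =
        (φ 0 (u j) * ∏ i, (1 - u j + u j * j.removeNth u i)) *
        (sg τ * ((∏ i, φ i.succ (j.removeNth u (τ i))) * kp ((j.removeNth u) ∘ τ))) := by
      intro τ
      rw [kp_cons, Fin.prod_univ_succ]
      simp only [Fin.cons_zero, Fin.cons_succ, Function.comp_apply]
      have : ∏ i, (1 - u j + u j * j.removeNth u (τ i)) =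
          ∏ i, (1 - u j + u j * j.removeNth u i) :=
        Equiv.prod_comp τ (fun i => (1 - u j + u j * j.removeNth u i))
      rw [this]
      ring
    rw [Finset.sum_congr rfl (fun τ _ => e1 τ), ← Finset.mul_sum, ← ih']
    have hne : ∀ i, j.removeNth u i - u j ≠ 0 := by
      intro i h
      exact Fin.succAbove_ne j i (hu (sub_eq_zero.1 h))
    have e2 : (∏ i, K (u j) (j.removeNth u i)) * (∏ i, (j.removeNth u i - u j)) =
        ∏ i, (1 - u j + u j * j.removeNth u i) := by
      rw [← Finset.prod_mul_distrib]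
      refine Finset.prod_congr rfl fun i _ => ?_
      unfold K
      exact div_mul_cancel₀ _ (hne i)
    rw [← e2]
    ring

/-! ### the linear functional -/

/-- exponent vector of a permutation -/
noncomputable def ex {n : ℕ} (κ : Fin n → ℕ) : Fin n →₀ ℕ := Finsupp.equivFunOnFinite.symm κ

@[simp] lemma ex_apply {n : ℕ} (κ : Fin n → ℕ) (i : Fin n) : ex κ i = κ i := rfl

lemma ex_inj {n : ℕ} {κ μ : Fin n → ℕ} : ex κ = ex μ ↔ κ = μ := by
  unfold ex
  exact (Finsupp.equivFunOnFinite.symm).injective.eq_iff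

/-- alternating sum of the coefficients at the permutations of `(0,1,…,n-1)` -/
noncomputable def Lam {n : ℕ} (G : MvPolynomial (Fin n) ℚ) : ℚ :=
  ∑ τ : Equiv.Perm (Fin n), sg τ * G.coeff (ex fun i => (τ i : ℕ))

lemma Lam_add {n : ℕ} (G H : MvPolynomial (Fin n) ℚ) : Lam (G + H) = Lam G + Lam H := by
  unfold Lam
  rw [← Finset.sum_add_distrib]
  refine Finset.sum_congr rfl fun τ _ => ?_
  rw [MvPolynomial.coeff_add]; ring

lemma Lam_smul {n : ℕ} (c : ℚ) (G : MvPolynomial (Fin n) ℚ) :
    Lam (MvPolynomial.C c * G) = c * Lam G := by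
  unfold Lam
  rw [Finset.mul_sum]
  refine Finset.sum_congr rfl fun τ _ => ?_
  rw [MvPolynomial.coeff_C_mul]; ring

lemma Lam_sum {n : ℕ} {ι : Type*} (s : Finset ι) (G : ι → MvPolynomial (Fin n) ℚ) :
    Lam (∑ i ∈ s, G i) = ∑ i ∈ s, Lam (G i) := by
  classical
  induction s using Finset.induction_on with
  | empty => simp [Lam]
  | insert a s ha ih => rw [Finset.sum_insert ha, Finset.sum_insert ha, Lam_add, ih]

lemma sum_fin_val (n : ℕ) : ∑ i : Fin n, (i : ℕ) = n.choose 2 := by
  rw [Fin.sum_univ_eq_sum_range (fun i => i) n, Finset.sum_range_id, Nat.choose_two_right]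

lemma injective_sum {n : ℕ} (κ : Fin n → ℕ) (hκ : Function.Injective κ) :
    n.choose 2 ≤ ∑ i, κ i ∧
      (∑ i, κ i = n.choose 2 → ∃ τ : Equiv.Perm (Fin n), ∀ i, κ i = τ i) := by
  set σ := Tuple.sort κ with hσ
  have hmono : Monotone (κ ∘ σ) := Tuple.monotone_sort κ
  have hstrict : StrictMono (κ ∘ σ) := hmono.strictMono_of_injective (hκ.comp σ.injective)
  have hle : ∀ m (h : m < n), m ≤ (κ ∘ σ) ⟨m, h⟩ := by
    intro m
    induction m with
    | zero => intro _; exact Nat.zero_le _
    | succ m ih =>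
      intro h
      have h1 := ih (by omega)
      have h2 : (κ ∘ σ) ⟨m, by omega⟩ < (κ ∘ σ) ⟨m + 1, h⟩ := hstrict (by simp)
      omega
  have hle' : ∀ i : Fin n, (i : ℕ) ≤ (κ ∘ σ) i := fun i => hle i i.2
  have hsum : ∑ i, κ i = ∑ i, (κ ∘ σ) i := (Equiv.sum_comp σ κ).symm
  rw [hsum, ← sum_fin_val]
  refine ⟨Finset.sum_le_sum fun i _ => hle' i, fun h => ?_⟩
  have h2 := (Finset.sum_eq_sum_iff_of_le (s := Finset.univ) (fun i _ => hle' i)).1 h.symm
  refine ⟨σ.symm, fun i => ?_⟩
  have h3 := h2 (σ.symm i) (Finset.mem_univ _)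
  simp only [Function.comp_apply, Equiv.apply_symm_apply] at h3
  exact h3.symm

/-- polynomials in `n` variables with coefficients polynomials in `T` -/
abbrev AT (n : ℕ) := MvPolynomial (Fin n) (Polynomial ℚ)

/-- evaluation at `T` and `x` -/
noncomputable def ev {n : ℕ} (T : ℚ) (x : Fin n → ℚ) : AT n →+* ℚ :=
  MvPolynomial.eval₂Hom (Polynomial.evalRingHom T) x

/-- specialisation `T = 0` -/
noncomputable def at0 {n : ℕ} : AT n →+* MvPolynomial (Fin n) ℚ :=
  MvPolynomial.map (Polynomial.evalRingHom 0)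

lemma det_pow {n : ℕ} (c : Fin n → ℚ) (κ : Fin n → ℕ) :
    ∑ σ : Equiv.Perm (Fin n), sg σ * ∏ i, c (σ i) ^ κ i =
      (Matrix.of fun i j : Fin n => c i ^ κ j).det := by
  rw [Matrix.det_apply]
  refine Finset.sum_congr rfl fun σ _ => ?_
  unfold sg
  simp [Units.smul_def]

lemma det_pow_perm {n : ℕ} (c : Fin n → ℚ) (τ : Equiv.Perm (Fin n)) :
    (Matrix.of fun i j : Fin n => c i ^ (τ j : ℕ)).det = sg τ * Vd c := by
  unfold Vd sg
  rw [← Matrix.det_permute' τ]
  rfl

lemma lim_monomial {n : ℕ} (c : Fin n → ℚ) (κ : Fin n → ℕ) (a : Polynomial ℚ) :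
    Tendsto (fun T : ℚ => (∑ σ : Equiv.Perm (Fin n), sg σ *
      (a.eval T * ∏ i, (T * c (σ i)) ^ κ i)) / T ^ (n.choose 2)) (𝓝[>] 0)
      (𝓝 (Vd c * ∑ τ : Equiv.Perm (Fin n), sg τ *
        (if κ = (fun i => (τ i : ℕ)) then a.eval 0 else 0))) := by
  have h1 : ∀ T : ℚ, (∑ σ : Equiv.Perm (Fin n), sg σ * (a.eval T * ∏ i, (T * c (σ i)) ^ κ i)) =
      a.eval T * T ^ (∑ i, κ i) * (Matrix.of fun i j : Fin n => c i ^ κ j).det := by
    intro T
    rw [← det_pow, Finset.mul_sum]
    refine Finset.sum_congr rfl fun σ _ => ?_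
    simp_rw [mul_pow]
    rw [Finset.prod_mul_distrib, Finset.prod_pow_eq_pow_sum]
    ring
  simp_rw [h1]
  by_cases hκ : Function.Injective κ
  · obtain ⟨hle, heq⟩ := injective_sum κ hκ
    obtain ⟨d, hd⟩ := Nat.exists_eq_add_of_le hle
    have h2 : ∀ᶠ T in 𝓝[>] (0 : ℚ), a.eval T * T ^ (∑ i, κ i) *
        (Matrix.of fun i j : Fin n => c i ^ κ j).det / T ^ (n.choose 2) =
        a.eval T * T ^ d * (Matrix.of fun i j : Fin n => c i ^ κ j).det := by
      filter_upwards [self_mem_nhdsWithin] with T hT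
      have hT0 : T ≠ 0 := ne_of_gt hT
      have : T ^ (n.choose 2) ≠ 0 := pow_ne_zero _ hT0
      rw [hd, pow_add]
      field_simp
    rw [tendsto_congr' h2]
    have h3 : Continuous fun T : ℚ => a.eval T * T ^ d *
        (Matrix.of fun i j : Fin n => c i ^ κ j).det := by
      have := a.continuous
      fun_prop
    have h4 : Tendsto (fun T : ℚ => a.eval T * T ^ d *
        (Matrix.of fun i j : Fin n => c i ^ κ j).det) (𝓝[>] 0)
        (𝓝 (a.eval 0 * 0 ^ d * (Matrix.of fun i j : Fin n => c i ^ κ j).det)) :=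
      (h3.tendsto 0).mono_left nhdsWithin_le_nhds
    convert h4 using 2
    by_cases hd0 : d = 0
    · subst hd0
      rw [add_zero] at hd
      obtain ⟨τ, hτ⟩ := heq hd
      have hκτ : κ = fun i => (τ i : ℕ) := funext hτ
      rw [Finset.sum_eq_single τ]
      · rw [if_pos hκτ]
        have : (Matrix.of fun i j : Fin n => c i ^ κ j).det = sg τ * Vd c := by
          rw [← det_pow_perm, hκτ]
        rw [this]; ring
      · intro τ' _ hne
        rw [if_neg, mul_zero]
        intro h
        apply hne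
        ext i
        have := congrFun (h.symm.trans hκτ) i
        exact this
      · intro h; exact absurd (Finset.mem_univ _) h
    · rw [zero_pow hd0, Finset.sum_eq_zero]
      · ring
      · intro τ _
        rw [if_neg, mul_zero]
        intro h
        apply hd0
        have : ∑ i, κ i = n.choose 2 := by
          rw [h, Equiv.sum_comp τ (fun i => (i : ℕ)), sum_fin_val]
        omega
  · have h0 : (Matrix.of fun i j : Fin n => c i ^ κ j).det = 0 := by
      simp only [Function.Injective, not_forall] at hκ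
      obtain ⟨i, j, hij, hne⟩ := hκ
      refine Matrix.det_zero_of_column_eq hne ?_
      intro k
      simp [hij]
    have hs : ∑ τ : Equiv.Perm (Fin n), sg τ *
        (if κ = (fun i => (τ i : ℕ)) then a.eval 0 else 0) = 0 := by
      apply Finset.sum_eq_zero
      intro τ _
      rw [if_neg, mul_zero]
      rintro rfl
      exact hκ (fun a b h => τ.injective (Fin.val_injective h))
    rw [h0, hs]
    simp

lemma lim_perm {n : ℕ} (c : Fin n → ℚ) (G : AT n) :
    Tendsto (fun T : ℚ => (∑ σ : Equiv.Perm (Fin n), sg σ *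
      ev T (fun i => T * c (σ i)) G) / T ^ (n.choose 2)) (𝓝[>] 0)
      (𝓝 (Vd c * Lam (at0 G))) := by
  induction G using MvPolynomial.induction_on' with
  | monomial κ a =>
    have := lim_monomial c κ a
    convert this using 2
    · rename_i T
      congr 1
      refine Finset.sum_congr rfl fun σ _ => ?_
      unfold ev
      simp only [MvPolynomial.coe_eval₂Hom, MvPolynomial.eval₂_monomial,
        Polynomial.coe_evalRingHom]
      congr 2
      rw [Finsupp.prod_fintype]
      intro i; simp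
    · unfold Lam at0
      congr 1
      refine Finset.sum_congr rfl fun τ _ => ?_
      rw [MvPolynomial.map_monomial, MvPolynomial.coeff_monomial]
      simp only [Polynomial.coe_evalRingHom]
      congr 1
      have : (κ = ex fun i => (τ i : ℕ)) ↔ ((κ : Fin n → ℕ) = fun i => (τ i : ℕ)) := by
        constructor
        · intro h; rw [h]; rfl
        · intro h; ext i; rw [congrFun h i]; rfl
      by_cases h : κ = ex fun i => (τ i : ℕ)
      · rw [if_pos h, if_pos (this.1 h)]
      · rw [if_neg h, if_neg (fun h' => h (this.2 h'))]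
  | add p q hp hq =>
    have := hp.add hq
    convert this using 2
    · rename_i T
      rw [← add_div, ← Finset.sum_add_distrib]
      congr 1
      refine Finset.sum_congr rfl fun σ _ => ?_
      rw [map_add]; ring
    · rw [map_add, Lam_add]; ring

lemma Vd_scale {n : ℕ} (c : Fin n → ℚ) (T : ℚ) :
    Vd (fun i => 1 + T * c i) = T ^ (n.choose 2) * Vd c := by
  unfold Vd
  rw [Matrix.det_vandermonde, Matrix.det_vandermonde]
  have : ∀ i j : Fin n, (1 + T * c j) - (1 + T * c i) = T * (c j - c i) := by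
    intro i j; ring
  simp_rw [this, Finset.prod_mul_distrib, Finset.prod_const, Finset.prod_pow_eq_pow_sum]
  congr 2
  rw [← sum_fin_val]
  have h1 : ∀ i : Fin n, (Finset.Ioi i).card = n - 1 - (i : ℕ) := fun i => Fin.card_Ioi i
  simp_rw [h1]
  have h2 := Equiv.sum_comp Fin.revPerm (fun i : Fin n => (i : ℕ))
  rw [← h2]
  refine Finset.sum_congr rfl fun i _ => ?_
  simp only [Fin.revPerm_apply, Fin.val_rev]
  omega

/-- kernel in `AT n` -/
noncomputable def kern (n : ℕ) : AT n := kp (fun i : Fin n => 1 + MvPolynomial.X i)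

lemma ev_X {n : ℕ} (T : ℚ) (x : Fin n → ℚ) (i : Fin n) : ev T x (MvPolynomial.X i) = x i := by
  simp [ev]

lemma ev_kern {n : ℕ} (T : ℚ) (x : Fin n → ℚ) : ev T x (kern n) = kp (fun i => 1 + x i) := by
  unfold kern kp
  simp only [map_prod, map_add, map_sub, map_mul, map_one, ev_X]

/-- general confluent limit -/
theorem lim_Z {n : ℕ} (c : Fin n → ℚ) (hc : Function.Injective c) (φ : Fin n → ℚ → ℚ → ℚ)
    (G : AT n) (hG : ∀ (T : ℚ) (x : Fin n → ℚ), ev T x G = ∏ i, φ i T (1 + x i)) :
    Tendsto (fun T : ℚ => Z (List.ofFn fun i => φ i T)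
      (Finset.univ.image fun i => 1 + T * c i)) (𝓝[>] 0) (𝓝 (Lam (at0 (G * kern n)))) := by
  have h := lim_perm c (G * kern n)
  have hV : Vd c ≠ 0 := Vd_ne_zero hc
  have h2 := h.div_const (Vd c)
  rw [mul_div_cancel_left₀ _ hV] at h2
  refine h2.congr' ?_
  filter_upwards [self_mem_nhdsWithin] with T hT
  have hT0 : T ≠ 0 := ne_of_gt hT
  have hinj : Function.Injective fun i => 1 + T * c i := by
    intro a b hab
    apply hc
    have : T * c a = T * c b := by
      have := hab
      simp only at this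
      linarith
    exact mul_left_cancel₀ hT0 this
  have hZ := Z_eq_perm (fun i => φ i T) (fun i => 1 + T * c i) hinj
  rw [Vd_scale] at hZ
  have hTp : T ^ (n.choose 2) ≠ 0 := pow_ne_zero _ hT0
  have hsum : (∑ σ : Equiv.Perm (Fin n), sg σ * ev T (fun i => T * c (σ i)) (G * kern n)) =
      ∑ σ : Equiv.Perm (Fin n), sg σ * ((∏ i, φ i T (1 + T * c (σ i))) *
        kp ((fun i => 1 + T * c i) ∘ σ)) := by
    refine Finset.sum_congr rfl fun σ _ => ?_
    rw [map_mul, hG, ev_kern]
    rfl
  rw [hsum, ← hZ]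
  field_simp

end Pool.Agent.helper40.MT
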