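import Mathlib
import Pool.Agent.helper40.MT.Count
import Pool.Agent.helper40.MT.Lim

/-! The monotone triangle polynomial as confluent limit. -/

namespace Pool.Agent.helper40.MT

open Finset Matrix Filter Topology

/-- the wavefunction sum with exponents `k` has the confluent limit `L` -/
def IsLim {n : ℕ} (k : Fin n → ℤ) (L : ℚ) : Prop :=
  ∀ c : Fin n → ℚ, Function.Injective c →
    Tendsto (fun T : ℚ => P (List.ofFn k) (Finset.univ.image fun i => 1 + T * c i))
      (𝓝[>] 0) (𝓝 L)

lemma cinj (n : ℕ) : Function.Injective (fun i : Fin n => (((i : ℕ) : ℚ) + 1)) := by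
  intro a b h
  have : ((a : ℕ) : ℚ) = ((b : ℕ) : ℚ) := by simpa using h
  exact Fin.ext (by exact_mod_cast this)

lemma IsLim.unique {n : ℕ} {k : Fin n → ℤ} {L M : ℚ} (h : IsLim k L) (h' : IsLim k M) :
    L = M :=
  tendsto_nhds_unique (h _ (cinj n)) (h' _ (cinj n))

lemma one_add_inj {n : ℕ} {c : Fin n → ℚ} (hc : Function.Injective c) {T : ℚ} (hT : T ≠ 0) :
    Function.Injective fun i => 1 + T * c i := by
  intro a b hab
  apply hc
  have : T * c a = T * c b := by
    simp only at hab
    linarith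
  exact mul_left_cancel₀ hT this

lemma one_add_ne_zero {n : ℕ} (c : Fin n → ℚ) :
    ∀ᶠ T in 𝓝[>] (0 : ℚ), ∀ i, 1 + T * c i ≠ 0 := by
  rw [Filter.eventually_all]
  intro i
  have h : Tendsto (fun T : ℚ => 1 + T * c i) (𝓝[>] 0) (𝓝 (1 + 0 * c i)) := by
    have : Continuous fun T : ℚ => 1 + T * c i := by fun_prop
    exact (this.tendsto 0).mono_left nhdsWithin_le_nhds
  rw [zero_mul, add_zero] at h
  exact h.eventually_ne one_ne_zero

/-- shifting the exponents does not change the limit -/
lemma IsLim.of_shift {n : ℕ} {k : Fin n → ℤ} {L : ℚ} (m : ℕ)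
    (h : IsLim (fun i => k i + m) L) : IsLim k L := by
  intro c hc
  have h1 := h c hc
  have h2 : Tendsto (fun T : ℚ => ∏ i, (1 + T * c i) ^ (m : ℤ)) (𝓝[>] 0) (𝓝 1) := by
    have : Continuous fun T : ℚ => ∏ i, (1 + T * c i) ^ m := by fun_prop
    have h3 := (this.tendsto 0).mono_left (nhdsWithin_le_nhds (s := Set.Ioi 0))
    simpa using h3
  have h3 := h1.div h2 one_ne_zero
  rw [div_one] at h3
  refine h3.congr' ?_
  filter_upwards [self_mem_nhdsWithin, one_add_ne_zero c] with T hT hT2
  have hT0 : T ≠ 0 := ne_of_gt hT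
  have hinj := one_add_inj hc hT0
  have hcard : (List.ofFn k).length = (Finset.univ.image fun i => 1 + T * c i).card := by
    rw [Finset.card_image_of_injective _ hinj]; simp
  have hne : ∀ u ∈ (Finset.univ.image fun i => 1 + T * c i), u ≠ 0 := by
    intro u hu
    obtain ⟨i, -, rfl⟩ := Finset.mem_image.1 hu
    exact hT2 i
  have h4 := P_shift (List.ofFn k) m _ hcard hne
  rw [List.map_ofFn] at h4
  have h5 : (List.ofFn ((fun x => x + (m : ℤ)) ∘ k)) = List.ofFn (fun i => k i + (m : ℤ)) := rfl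
  rw [h5] at h4
  simp only [Pi.div_apply]
  rw [h4, Finset.prod_image (fun a _ b _ h => hinj h), mul_div_cancel_left₀]
  rw [Finset.prod_ne_zero_iff]
  intro i _
  exact zpow_ne_zero _ (hT2 i)

/-! ### the polynomial -/

/-- binomial coefficient as a polynomial in the `i`-th variable -/
noncomputable def binP {n : ℕ} (i : Fin n) (m : ℕ) : MvPolynomial (Fin n) ℚ :=
  MvPolynomial.C (1 / (m.factorial : ℚ)) * Polynomial.aeval (MvPolynomial.X i) (descPochhammer ℚ m)

lemma eval_binP {n : ℕ} (k : Fin n → ℕ) (i : Fin n) (m : ℕ) :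
    MvPolynomial.eval (fun i => (k i : ℚ)) (binP i m) = ((k i).choose m : ℚ) := by
  unfold binP
  rw [map_mul, MvPolynomial.eval_C]
  have h1 : MvPolynomial.eval (fun i => (k i : ℚ))
      (Polynomial.aeval (MvPolynomial.X i) (descPochhammer ℚ m)) =
      Polynomial.eval ((k i : ℕ) : ℚ) (descPochhammer ℚ m) := by
    rw [← MvPolynomial.coe_aeval_eq_eval]
    rw [RingHom.coe_coe, ← Polynomial.aeval_algHom_apply, MvPolynomial.aeval_X]
    rfl
  rw [h1, descPochhammer_eval_eq_descFactorial, Nat.descFactorial_eq_factorial_mul_choose]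
  have : (m.factorial : ℚ) ≠ 0 := by exact_mod_cast m.factorial_ne_zero
  push_cast
  field_simp

/-- product of variables -/
noncomputable def mon {n : ℕ} (μ : Fin n → ℕ) : MvPolynomial (Fin n) ℚ :=
  ∏ i, MvPolynomial.X i ^ μ i

lemma mon_eq {n : ℕ} (μ : Fin n → ℕ) : mon μ = MvPolynomial.monomial (ex μ) 1 := by
  unfold mon
  rw [MvPolynomial.monomial_eq, MvPolynomial.C_1, one_mul, Finsupp.prod_fintype]
  · rfl
  · intro i; simp

lemma Lam_mon_zero {n : ℕ} (μ : Fin n → ℕ) (G : MvPolynomial (Fin n) ℚ) (i : Fin n)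
    (hi : n ≤ μ i) : Lam (mon μ * G) = 0 := by
  unfold Lam
  apply Finset.sum_eq_zero
  intro τ _
  rw [mon_eq, MvPolynomial.coeff_monomial_mul', if_neg, mul_zero]
  intro h
  have := h i
  simp only [ex_apply] at this
  have := (τ i).2
  omega

lemma Lam_expand {n : ℕ} (k : Fin n → ℕ) (G : MvPolynomial (Fin n) ℚ) :
    Lam ((∏ i, (1 + MvPolynomial.X i) ^ k i) * G) =
      ∑ μ ∈ Fintype.piFinset (fun _ : Fin n => Finset.range n),
        Lam (mon μ * G) * ∏ i, ((k i).choose (μ i) : ℚ) := by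
  classical
  have h1 : (∏ i : Fin n, (1 + MvPolynomial.X i) ^ k i : MvPolynomial (Fin n) ℚ) =
      ∑ μ ∈ Fintype.piFinset (fun i : Fin n => Finset.range (k i + 1)),
        MvPolynomial.C (∏ i, ((k i).choose (μ i) : ℚ)) * mon μ := by
    have h2 : ∀ i : Fin n, (1 + MvPolynomial.X i : MvPolynomial (Fin n) ℚ) ^ k i =
        ∑ m ∈ Finset.range (k i + 1),
          MvPolynomial.C ((k i).choose m : ℚ) * MvPolynomial.X i ^ m := by
      intro i
      rw [add_comm, add_pow]
      refine Finset.sum_congr rfl fun m _ => ?_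
      simp only [one_pow, mul_one, map_natCast]
      ring
    rw [Finset.prod_congr rfl (fun i _ => h2 i), Finset.prod_univ_sum]
    refine Finset.sum_congr rfl fun μ _ => ?_
    rw [Finset.prod_mul_distrib, map_prod]
    rfl
  rw [h1, Finset.sum_mul, Lam_sum]
  have h3 : ∀ μ : Fin n → ℕ, Lam (MvPolynomial.C (∏ i, ((k i).choose (μ i) : ℚ)) * mon μ * G) =
      Lam (mon μ * G) * ∏ i, ((k i).choose (μ i) : ℚ) := by
    intro μ
    rw [mul_assoc, Lam_smul]; ring
  simp_rw [h3]
  obtain ⟨B, hB1, hB2⟩ : ∃ B : ℕ, n ≤ B ∧ ∀ i, k i + 1 ≤ B := by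
    refine ⟨n + ∑ i, (k i + 1), by omega, fun i => ?_⟩
    have : k i + 1 ≤ ∑ i, (k i + 1) := Finset.single_le_sum (f := fun i => k i + 1)
      (fun i _ => Nat.zero_le _) (Finset.mem_univ i)
    omega
  trans ∑ μ ∈ Fintype.piFinset (fun _ : Fin n => Finset.range B),
        Lam (mon μ * G) * ∏ i, ((k i).choose (μ i) : ℚ)
  · apply Finset.sum_subset
    · intro μ hμ
      rw [Fintype.mem_piFinset] at hμ ⊢
      intro i
      have := hμ i
      rw [Finset.mem_range] at this ⊢
      have := hB2 i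
      omega
    · intro μ _ hμ
      rw [Fintype.mem_piFinset, not_forall] at hμ
      obtain ⟨i, hi⟩ := hμ
      rw [Finset.mem_range, not_lt] at hi
      have : ∏ i, ((k i).choose (μ i) : ℚ) = 0 := by
        apply Finset.prod_eq_zero (Finset.mem_univ i)
        rw [Nat.choose_eq_zero_of_lt (by omega)]; simp
      rw [this, mul_zero]
  · symm
    apply Finset.sum_subset
    · intro μ hμ
      rw [Fintype.mem_piFinset] at hμ ⊢
      intro i
      have := hμ i
      rw [Finset.mem_range] at this ⊢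
      omega
    · intro μ _ hμ
      rw [Fintype.mem_piFinset, not_forall] at hμ
      obtain ⟨i, hi⟩ := hμ
      rw [Finset.mem_range, not_lt] at hi
      rw [Lam_mon_zero μ G i hi, zero_mul]

/-- the monotone triangle polynomial -/
noncomputable def pn (n : ℕ) : MvPolynomial (Fin n) ℚ :=
  ∑ μ ∈ Fintype.piFinset (fun _ : Fin n => Finset.range n),
    MvPolynomial.C (Lam (mon μ * at0 (kern n))) * ∏ i, binP i (μ i)

lemma eval_pn {n : ℕ} (k : Fin n → ℕ) :
    MvPolynomial.eval (fun i => (k i : ℚ)) (pn n) =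
      Lam ((∏ i, (1 + MvPolynomial.X i) ^ k i) * at0 (kern n)) := by
  rw [Lam_expand]
  unfold pn
  rw [map_sum]
  refine Finset.sum_congr rfl fun μ _ => ?_
  rw [map_mul, MvPolynomial.eval_C, map_prod]
  congr 1
  exact Finset.prod_congr rfl fun i _ => eval_binP k i (μ i)

lemma at0_X {n : ℕ} (i : Fin n) : at0 (MvPolynomial.X i) = MvPolynomial.X i := by
  simp [at0]

lemma isLim_nat {n : ℕ} (k : Fin n → ℕ) :
    IsLim (fun i => (k i : ℤ)) (MvPolynomial.eval (fun i => (k i : ℚ)) (pn n)) := by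
  intro c hc
  have h := lim_Z c hc (fun i _ u => u ^ k i) (∏ i, (1 + MvPolynomial.X i) ^ k i) (by
    intro T x
    simp only [map_prod, map_pow, map_add, map_one, ev_X])
  rw [eval_pn]
  have h1 : at0 ((∏ i : Fin n, (1 + MvPolynomial.X i) ^ k i) * kern n) =
      (∏ i, (1 + MvPolynomial.X i) ^ k i) * at0 (kern n) := by
    simp only [map_mul, map_prod, map_pow, map_add, map_one, at0_X]
  rw [h1] at h
  refine h.congr fun T => ?_
  unfold P
  rw [List.map_ofFn]
  have : (fun i => fun u : ℚ => u ^ k i) = (fun (k : ℤ) (u : ℚ) => u ^ k) ∘ fun i => (k i : ℤ) := by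
    funext i u
    simp only [Function.comp_apply, zpow_natCast]
  rw [← this]

/-! ### polynomial identities -/

lemma eq_zero_of_nat {n : ℕ} (p : MvPolynomial (Fin n) ℚ)
    (h : ∀ k : Fin n → ℕ, MvPolynomial.eval (fun i => (k i : ℚ)) p = 0) : p = 0 := by
  classical
  apply MvPolynomial.eq_zero_of_eval_zero_at_prod_finset p
    (fun _ => (Finset.range (p.totalDegree + 1)).image (fun t : ℕ => (t : ℚ)))
  · intro i
    rw [Finset.card_image_of_injective _ Nat.cast_injective, Finset.card_range]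
    exact Nat.lt_succ_of_le (MvPolynomial.degreeOf_le_totalDegree p i)
  · intro x hx
    have : ∀ i, ∃ t : ℕ, (t : ℚ) = x i := by
      intro i
      obtain ⟨t, -, ht⟩ := Finset.mem_image.1 (hx i)
      exact ⟨t, ht⟩
    choose k hk using this
    have hxk : x = fun i => (k i : ℚ) := funext fun i => (hk i).symm
    rw [hxk]
    exact h k

lemma eq_zero_of_strictMono {n : ℕ} (p : MvPolynomial (Fin n) ℚ)
    (h : ∀ k : Fin n → ℤ, StrictMono k → MvPolynomial.eval (fun i => (k i : ℚ)) p = 0) :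
    p = 0 := by
  classical
  set D := p.totalDegree + 1 with hD
  apply MvPolynomial.eq_zero_of_eval_zero_at_prod_finset p
    (fun i => (Finset.range D).image (fun t : ℕ => (((i : ℕ) * D + t : ℕ) : ℚ)))
  · intro i
    rw [Finset.card_image_of_injective _ (fun a b hab => by
      have : ((i : ℕ) * D + a : ℕ) = ((i : ℕ) * D + b : ℕ) := by exact_mod_cast hab
      omega), Finset.card_range]
    exact Nat.lt_succ_of_le (MvPolynomial.degreeOf_le_totalDegree p i)
  · intro x hx
    have : ∀ i : Fin n, ∃ t : ℕ, t < D ∧ (((i : ℕ) * D + t : ℕ) : ℚ) = x i := by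
      intro i
      obtain ⟨t, ht, ht2⟩ := Finset.mem_image.1 (hx i)
      exact ⟨t, Finset.mem_range.1 ht, ht2⟩
    choose t ht htx using this
    have hxk : x = fun i : Fin n => ((((i : ℕ) * D + t i : ℕ) : ℤ) : ℚ) := by
      funext i
      rw [← htx i]
      push_cast
      rfl
    rw [hxk]
    apply h (fun i : Fin n => (((i : ℕ) * D + t i : ℕ) : ℤ))
    intro i j hij
    have h1 : (i : ℕ) + 1 ≤ (j : ℕ) := hij
    have h2 : ((i : ℕ) + 1) * D ≤ (j : ℕ) * D := Nat.mul_le_mul_right D h1
    have h3 := ht i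
    have h4 : (i : ℕ) * D + t i < (j : ℕ) * D + t j := by
      calc (i : ℕ) * D + t i < (i : ℕ) * D + D := by omega
        _ = ((i : ℕ) + 1) * D := by ring
        _ ≤ (j : ℕ) * D := h2
        _ ≤ _ := Nat.le_add_right _ _
    show (((i : ℕ) * D + t i : ℕ) : ℤ) < (((j : ℕ) * D + t j : ℕ) : ℤ)
    exact_mod_cast h4

lemma pn_shift {n : ℕ} (k : Fin n → ℤ) (m : ℕ) :
    MvPolynomial.eval (fun i => ((k i : ℚ) + m)) (pn n) =
      MvPolynomial.eval (fun i => (k i : ℚ)) (pn n) := by
  have h0 : MvPolynomial.bind₁ (fun i => MvPolynomial.X i + MvPolynomial.C (m : ℚ)) (pn n) -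
      pn n = 0 := by
    apply eq_zero_of_nat
    intro k
    rw [map_sub, ← MvPolynomial.coe_aeval_eq_eval, RingHom.coe_coe, MvPolynomial.aeval_bind₁,
      sub_eq_zero]
    have h1 : (fun i => (MvPolynomial.aeval fun i => (k i : ℚ))
        (MvPolynomial.X i + MvPolynomial.C (m : ℚ) : MvPolynomial (Fin n) ℚ)) =
        fun i => (((k i + m : ℕ)) : ℚ) := by
      funext i
      simp
    rw [h1]
    have h2 := isLim_nat (fun i => k i + m)
    have h3 : IsLim (fun i => ((k i : ℤ) + (m : ℤ)))
        (MvPolynomial.eval (fun i => ((k i + m : ℕ) : ℚ)) (pn n)) := by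
      have : (fun i => ((k i : ℤ) + (m : ℤ))) = fun i => ((k i + m : ℕ) : ℤ) := by
        funext i; push_cast; rfl
      rw [this]
      exact h2
    exact (IsLim.of_shift m h3).unique (isLim_nat k)
  have h1 := congrArg (MvPolynomial.eval (fun i => (k i : ℚ))) h0
  rw [map_sub, map_zero, sub_eq_zero, ← MvPolynomial.coe_aeval_eq_eval, RingHom.coe_coe,
    MvPolynomial.aeval_bind₁] at h1
  have h2 : (fun i => (MvPolynomial.aeval fun i => (k i : ℚ))
      (MvPolynomial.X i + MvPolynomial.C (m : ℚ) : MvPolynomial (Fin n) ℚ)) =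
      fun i => ((k i : ℚ) + m) := by
    funext i
    simp
  rw [h2] at h1
  exact h1

/-- the limit exists for all integer exponents and is given by the polynomial -/
theorem isLim_int {n : ℕ} (k : Fin n → ℤ) :
    IsLim k (MvPolynomial.eval (fun i => (k i : ℚ)) (pn n)) := by
  obtain ⟨m, hm⟩ : ∃ m : ℕ, ∀ i, 0 ≤ k i + m := by
    refine ⟨∑ i, (k i).natAbs, fun i => ?_⟩
    have h1 : (k i).natAbs ≤ ∑ i, (k i).natAbs := Finset.single_le_sum
      (f := fun i => (k i).natAbs) (fun i _ => Nat.zero_le _) (Finset.mem_univ i)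
    omega
  rw [← pn_shift k m]
  apply IsLim.of_shift m
  have h2 := isLim_nat (fun i => (k i + m).toNat)
  have h3 : (fun i => (((k i + m).toNat : ℕ) : ℤ)) = fun i => k i + (m : ℤ) := by
    funext i
    exact Int.toNat_of_nonneg (hm i)
  have h4 : (fun i => (((k i + m).toNat : ℕ) : ℚ)) = fun i => ((k i : ℚ) + m) := by
    funext i
    have : (((k i + m).toNat : ℕ) : ℤ) = k i + (m : ℤ) := congrFun h3 i
    have h5 : ((((k i + m).toNat : ℕ) : ℤ) : ℚ) = ((k i + (m : ℤ) : ℤ) : ℚ) := by rw [this]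
    push_cast at h5
    exact_mod_cast h5
  rw [h3, h4] at h2
  exact h2

/-! ### counting -/

theorem isLim_card {n : ℕ} (k : Fin n → ℤ) (hk : StrictMono k) :
    IsLim k (Nat.card (MTri n k) : ℚ) := by
  induction n with
  | zero =>
    intro c _
    rw [card_zero]
    simp only [List.ofFn_zero, P_nil, Nat.cast_one]
    exact tendsto_const_nhds
  | succ n ih =>
    have hL := isLim_int k
    have hc' := cinj n
    have hc : Function.Injective (Fin.cons 0 (fun i : Fin n => (((i : ℕ) : ℚ) + 1)) :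
        Fin (n + 1) → ℚ) := by
      rw [Fin.cons_injective_iff]
      refine ⟨?_, hc'⟩
      rintro ⟨i, hi⟩
      simp only at hi
      have : (0 : ℚ) ≤ ((i : ℕ) : ℚ) := Nat.cast_nonneg _
      linarith
    have h1 := hL _ hc
    have h2 : Tendsto (fun T : ℚ => ∑ l ∈ Rset k, P (List.ofFn l)
        (Finset.univ.image fun i : Fin n => 1 + T * (((i : ℕ) : ℚ) + 1))) (𝓝[>] 0)
        (𝓝 (∑ l ∈ Rset k, (Nat.card (MTri n l) : ℚ))) := by
      apply tendsto_finsetSum
      intro l hl
      exact ih l ((mem_Rset k l).1 hl).2 _ hc'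
    have h3 : ∀ᶠ T in 𝓝[>] (0 : ℚ), P (List.ofFn k) (Finset.univ.image fun i => 1 + T *
        (Fin.cons 0 (fun i : Fin n => (((i : ℕ) : ℚ) + 1)) : Fin (n + 1) → ℚ) i) =
        ∑ l ∈ Rset k, P (List.ofFn l)
        (Finset.univ.image fun i : Fin n => 1 + T * (((i : ℕ) : ℚ) + 1)) := by
      filter_upwards [self_mem_nhdsWithin] with T hT
      have hT0 : (0 : ℚ) < T := hT
      have hset : (Finset.univ.image fun i => 1 + T *
          (Fin.cons 0 (fun i : Fin n => (((i : ℕ) : ℚ) + 1)) : Fin (n + 1) → ℚ) i) =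
          insert 1 (Finset.univ.image fun i : Fin n => 1 + T * (((i : ℕ) : ℚ) + 1)) := by
        ext x
        simp only [Finset.mem_image, Finset.mem_univ, true_and, Finset.mem_insert]
        constructor
        · rintro ⟨i, rfl⟩
          refine Fin.cases ?_ (fun i => ?_) i
          · left; simp
          · right; exact ⟨i, by simp⟩
        · rintro (rfl | ⟨i, rfl⟩)
          · exact ⟨0, by simp⟩
          · exact ⟨i.succ, by simp⟩
      rw [hset, List.ofFn_succ]
      have hpos : ∀ i : Fin n, 0 < T * (((i : ℕ) : ℚ) + 1) := fun i => by positivity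
      rw [branching, Rsum_eq_Rset _ k hk]
      · rw [Finset.card_image_of_injective _ (one_add_inj hc' hT0.ne')]; simp
      · intro h
        obtain ⟨i, -, hi⟩ := Finset.mem_image.1 h
        have := hpos i
        linarith
      · intro u hu
        obtain ⟨i, -, rfl⟩ := Finset.mem_image.1 hu
        have := hpos i
        linarith
      · rw [← List.ofFn_succ, List.pairwise_ofFn]
        intro i j hij
        exact hk hij
    have h4 := tendsto_nhds_unique (h1.congr' h3) h2
    rw [card_succ k hk]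
    push_cast
    rw [← h4]
    exact hL

theorem pn_isMTPoly (n : ℕ) : IsMTPoly n (pn n) := fun k hk =>
  ⟨MTri_finite k hk, (isLim_int k).unique (isLim_card k hk)⟩

theorem mtPoly_unique {n : ℕ} {p q : MvPolynomial (Fin n) ℚ} (hp : IsMTPoly n p)
    (hq : IsMTPoly n q) : p = q := by
  rw [← sub_eq_zero]
  apply eq_zero_of_strictMono
  intro k hk
  rw [map_sub, (hp k hk).2, (hq k hk).2, sub_self]

end Pool.Agent.helper40.MT
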