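import Mathlib
import Pool.Agent.helper40.MT.Inter
import Pool.Agent.helper40.MT.Poly

/-! The value of the monotone triangle polynomial at a reversed row. -/

namespace Pool.Agent.helper40.MT

open Finset Matrix Filter Topology

/-! ### reversed rows -/

/-- the list `a, a-1, …` of length `n` -/
def desc : ℤ → ℕ → List ℤ
  | _, 0 => []
  | a, n + 1 => a :: desc (a - 1) n

lemma desc_length (a : ℤ) (n : ℕ) : (desc a n).length = n := by
  induction n generalizing a with
  | zero => rfl
  | succ n ih => simp [desc, ih]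

lemma desc_map (a m : ℤ) (n : ℕ) : (desc a n).map (· + m) = desc (a + m) n := by
  induction n generalizing a with
  | zero => rfl
  | succ n ih =>
    simp only [desc, List.map_cons, ih]
    congr 2; ring

lemma ofFn_desc (a : ℤ) (n : ℕ) : List.ofFn (fun i : Fin n => a - ((i : ℕ) : ℤ)) = desc a n := by
  induction n generalizing a with
  | zero => simp [desc]
  | succ n ih =>
    rw [List.ofFn_succ]
    simp only [desc, Fin.val_zero, Nat.cast_zero, sub_zero]
    congr 1
    rw [← ih]
    congr 1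
    funext i
    simp only [Fin.val_succ]
    push_cast
    ring

lemma Alt_desc (f : List ℤ → ℚ) (a : ℤ) (n : ℕ) :
    Alt f (desc a (n + 1)) = if Even n then f (desc a n) else 0 := by
  induction n generalizing f a with
  | zero => simp [desc, Alt]
  | succ n ih =>
    have h1 : desc a (n + 1 + 1) = a :: desc (a - 1) (n + 1) := rfl
    rw [h1]
    have h2 : Alt f (a :: desc (a - 1) (n + 1)) = f ((desc (a - 1) (n + 1)).map (· + 1)) -
        Alt (fun l => f (a :: l)) (desc (a - 1) (n + 1)) := rfl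
    rw [h2, desc_map, ih]
    have h3 : a - 1 + 1 = a := by ring
    have h4 : a :: desc (a - 1) n = desc a (n + 1) := rfl
    rw [h3, h4]
    by_cases hn : Even n
    · rw [if_pos hn, if_neg (by rw [Nat.even_add_one]; simpa using hn)]; ring
    · rw [if_neg hn, if_pos (by rw [Nat.even_add_one]; exact hn)]; ring

lemma S_replicate (N : ℕ) (U : Finset ℚ) (hU : U.card = N) :
    S (List.replicate N 0) U * ∏ u ∈ U, (u - 1) =
      (∏ u ∈ U, (u - 1)) ^ N * P (desc ((N : ℤ) - 1) N) U := by
  induction N generalizing U with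
  | zero =>
    have : U = ∅ := by rw [← Finset.card_eq_zero]; exact hU
    subst this
    simp [S, desc, P_nil]
  | succ N ih =>
    have h1 : desc (((N + 1 : ℕ) : ℤ) - 1) (N + 1) = (N : ℤ) :: desc ((N : ℤ) - 1) N := by
      simp only [desc]
      push_cast
      congr 2
      · ring
      · ring
    rw [List.replicate_succ, S_cons, h1, P_cons, Finset.sum_mul, Finset.mul_sum]
    refine Finset.sum_congr rfl fun u hu => ?_
    have hc : (U.erase u).card = N := by
      rw [Finset.card_erase_of_mem hu, hU]; simp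
    have ih' := ih (U.erase u) hc
    rw [← Finset.mul_prod_erase U (fun u => u - 1) hu, List.map_replicate, List.prod_replicate]
    have h2 : ∏ w ∈ U.erase u, Bw w 0 * K u w =
        (∏ w ∈ U.erase u, (w - 1)) * ∏ w ∈ U.erase u, K u w := by
      rw [← Finset.prod_mul_distrib]
      refine Finset.prod_congr rfl fun w _ => ?_
      unfold Bw; ring
    have h3 : Aw u 0 = u * (u - 1) := by unfold Aw; ring
    rw [h2, h3, zpow_natCast]
    set X := ∏ w ∈ U.erase u, (w - 1)
    set Q := ∏ w ∈ U.erase u, K u w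
    calc (u * (u - 1)) ^ N * (X * Q) * S (List.replicate N 0) (U.erase u) * ((u - 1) * X)
        = (u * (u - 1)) ^ N * X * Q * (u - 1) * (S (List.replicate N 0) (U.erase u) * X) := by ring
      _ = (u * (u - 1)) ^ N * X * Q * (u - 1) *
          (X ^ N * P (desc ((N : ℤ) - 1) N) (U.erase u)) := by rw [ih']
      _ = _ := by simp only [mul_pow, pow_succ]; ring

/-! ### homogeneous column parameters -/

/-- homogeneous version of `S` -/
def Sh : List (ℚ × ℚ) → Finset ℚ → ℚ
  | [], _ => 1
  | b :: as, U => ∑ u ∈ U, (as.map fun c => u * (u - 1) * c.2 - c.1 * Du u).prod *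
      (∏ w ∈ U.erase u, (b.1 * Du w + (w - 1) * b.2) * K u w) * Sh as (U.erase u)

lemma Sh_eq (as : List (ℚ × ℚ)) (U : Finset ℚ) (hU : U.card = as.length)
    (hq : ∀ b ∈ as, b.2 ≠ 0) :
    Sh as U * (as.map Prod.snd).prod =
      (as.map Prod.snd).prod ^ as.length * S (as.map fun b => b.1 / b.2) U := by
  induction as generalizing U with
  | nil => simp [Sh, S]
  | cons b as ih =>
    have hq' : ∀ c ∈ as, c.2 ≠ 0 := fun c hc => hq c (List.mem_cons_of_mem _ hc)
    have hb : b.2 ≠ 0 := hq b List.mem_cons_self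
    simp only [List.map_cons, Sh, S_cons, List.prod_cons, List.length_cons]
    rw [Finset.sum_mul, Finset.mul_sum]
    refine Finset.sum_congr rfl fun u hu => ?_
    have hc : (U.erase u).card = as.length := by
      rw [Finset.card_erase_of_mem hu, hU]; simp
    have ih' := ih (U.erase u) hc hq'
    have h1 : (as.map fun c => u * (u - 1) * c.2 - c.1 * Du u).prod =
        (as.map Prod.snd).prod * ((as.map fun b => b.1 / b.2).map (Aw u)).prod := by
      clear ih ih' hc hU hq
      induction as with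
      | nil => simp
      | cons c as ih2 =>
        have := hq' c List.mem_cons_self
        simp only [List.map_cons, List.prod_cons]
        rw [ih2 (fun x hx => hq' x (List.mem_cons_of_mem _ hx))]
        have h2 : u * (u - 1) * c.2 - c.1 * Du u = c.2 * Aw u (c.1 / c.2) := by
          unfold Aw
          field_simp
        rw [h2]
        ring
    have h3 : ∏ w ∈ U.erase u, (b.1 * Du w + (w - 1) * b.2) * K u w =
        b.2 ^ as.length * ∏ w ∈ U.erase u, Bw w (b.1 / b.2) * K u w := by
      rw [← hc, ← Finset.prod_const, ← Finset.prod_mul_distrib]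
      refine Finset.prod_congr rfl fun w _ => ?_
      unfold Bw
      field_simp
    rw [h1, h3]
    set Q := (as.map Prod.snd).prod
    set A := ((as.map fun b => b.1 / b.2).map (Aw u)).prod
    set B := ∏ w ∈ U.erase u, Bw w (b.1 / b.2) * K u w
    calc Q * A * (b.2 ^ as.length * B) * Sh as (U.erase u) * (b.2 * Q)
        = Q * A * (b.2 ^ as.length * B) * b.2 * (Sh as (U.erase u) * Q) := by ring
      _ = Q * A * (b.2 ^ as.length * B) * b.2 * (Q ^ as.length *
          S (as.map fun b => b.1 / b.2) (U.erase u)) := by rw [ih']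
      _ = _ := by ring

/-- weights of the homogeneous sum -/
def wt {n : ℕ} (p q : Fin n → ℚ) (i : Fin n) (u : ℚ) : ℚ :=
  ∏ l : Fin n, if l < i then p l * Du u + (u - 1) * q l
    else if i < l then u * (u - 1) * q l - p l * Du u else 1

lemma Sh_eq_Z {n : ℕ} (p q : Fin n → ℚ) (U : Finset ℚ) (hU : U.card = n) :
    Sh (List.ofFn fun l => (p l, q l)) U = Z (List.ofFn fun i => wt p q i) U := by
  induction n generalizing U with
  | zero => simp [Sh, Z]
  | succ n ih =>
    rw [List.ofFn_succ, List.ofFn_succ, Z_cons]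
    simp only [Sh]
    refine Finset.sum_congr rfl fun u hu => ?_
    have hc : (U.erase u).card = n := by
      rw [Finset.card_erase_of_mem hu, hU]; simp
    rw [ih (fun l => p l.succ) (fun l => q l.succ) (U.erase u) hc]
    have h1 : wt p q 0 u = ∏ l : Fin n, (u * (u - 1) * q l.succ - p l.succ * Du u) := by
      unfold wt
      rw [Fin.prod_univ_succ]
      simp
    have h2 : (List.map (fun c : ℚ × ℚ => u * (u - 1) * c.2 - c.1 * Du u)
        (List.ofFn fun i : Fin n => (p i.succ, q i.succ))).prod = wt p q 0 u := by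
      rw [h1, List.map_ofFn, List.prod_ofFn]
      rfl
    have h3 : ∀ (i : Fin n) (w : ℚ), wt p q i.succ w =
        wt (fun l => p l.succ) (fun l => q l.succ) i w * (p 0 * Du w + (w - 1) * q 0) := by
      intro i w
      unfold wt
      rw [Fin.prod_univ_succ, if_pos (Fin.succ_pos i), mul_comm]
      congr 1
      refine Finset.prod_congr rfl fun l _ => ?_
      simp only [Fin.succ_lt_succ_iff]
    have h4 : (List.ofFn fun i : Fin n => wt p q i.succ) =
        (List.ofFn fun i : Fin n => wt (fun l => p l.succ) (fun l => q l.succ) i).map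
          (fun f w => f w * (p 0 * Du w + (w - 1) * q 0)) := by
      rw [List.map_ofFn]
      congr 1
      funext i w
      exact h3 i w
    rw [h4, Z_mulsym (fun w => (p 0 * Du w + (w - 1) * q 0)) _ _ (by simp [hc]), h2,
      Finset.prod_mul_distrib]
    ring

/-! ### the key identity -/

lemma prod_one_sub_vv (U : Finset ℚ) (n : ℕ) :
    (∏ u ∈ U, Du u) ^ n * ∏ u ∈ U, (1 - vv u) ^ n = (∏ u ∈ U, (u - 1)) ^ (2 * n) := by
  rw [← Finset.prod_pow, ← Finset.prod_pow, ← Finset.prod_mul_distrib]
  refine Finset.prod_congr rfl fun u _ => ?_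
  rw [← mul_pow, pow_mul]
  congr 1
  have := Du_ne u
  unfold vv
  field_simp
  unfold Du
  ring

theorem key_identity (n : ℕ) (U₁ U₂ : Finset ℚ) (h12 : Disjoint U₁ U₂) (h1 : Good U₁)
    (h2 : Good U₂) (c1 : U₁.card = n) (L : List ℚ) (hL : L.Nodup) (hLU : L.toFinset = U₂)
    (hLn : L.length = n) :
    P (desc ((2 * n : ℕ) - 1 : ℤ) (2 * n)) (U₁ ∪ U₂) =
      (-1) ^ ((2 * n).choose 2 + n.choose 2) * (∏ u ∈ U₁ ∪ U₂, (u - 1)) *
        Sh (L.map fun u => (u, Du u)) U₁ := by
  set U := U₁ ∪ U₂ with hU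
  have hmem : ∀ x ∈ L, x ∈ U₂ := fun x hx => by rw [← hLU]; simpa using hx
  have hU₂card : U₂.card = n := by
    rw [← hLU, List.toFinset_card_of_nodup hL, hLn]
  have hUcard : U.card = 2 * n := by
    rw [hU, Finset.card_union_of_disjoint h12, c1, hU₂card]; ring
  have hgood : Good U := by
    intro u hu
    rw [hU, Finset.mem_union] at hu
    rcases hu with hu | hu
    · exact h1 u hu
    · exact h2 u hu
  -- (i)
  have e1 := claim_nil (2 * n) U hgood (by simpa using hUcard) (by simp)
  simp only [List.nil_append, List.toFinset_nil, Finset.union_empty] at e1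
  rw [Psi_even, Finset.prod_image (fun x hx y hy h => vv_inj (hgood x hx).1 (hgood y hy).1 h),
    hUcard] at e1
  have e2 := S_replicate (2 * n) U hUcard
  -- (ii)
  have hLv : (L.map vv).Nodup :=
    List.Nodup.map_on (fun x hx y hy h => vv_inj (h2 x (hmem x hx)).1 (h2 y (hmem y hy)).1 h) hL
  have hLpos : ∀ a ∈ L.map vv, 0 < a := by
    intro a ha
    obtain ⟨x, hx, rfl⟩ := List.mem_map.1 ha
    exact vv_pos (h2 x (hmem x hx)).1
  have e3 := claim_all (L.map vv) 0 hLv hLpos U₁ h1 (by simp [c1, hLn]) (by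
    intro a ha h
    obtain ⟨x, hx, rfl⟩ := List.mem_map.1 ha
    obtain ⟨w, hw, hwx⟩ := Finset.mem_image.1 h
    have := vv_inj (h1 w hw).1 (h2 x (hmem x hx)).1 hwx
    subst this
    exact Finset.disjoint_left.1 h12 hw (hmem w hx))
  have hset : U₁.image vv ∪ (L.map vv).toFinset = U.image vv := by
    rw [hU, Finset.image_union]
    congr 1
    ext x
    simp [← hLU]
  rw [hset] at e3
  simp only [List.replicate_zero, List.append_nil] at e3
  -- (iii)
  have e4 := Sh_eq (L.map fun u => (u, Du u)) U₁ (by simp [c1, hLn]) (by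
    intro b hb
    obtain ⟨x, _, rfl⟩ := List.mem_map.1 hb
    exact Du_ne x)
  have h5 : ((L.map fun u => (u, Du u)).map Prod.snd).prod = ∏ u ∈ U₂, Du u := by
    rw [List.map_map, ← hLU, List.prod_toFinset _ hL]
    rfl
  have h6 : ((L.map fun u => (u, Du u)).map fun b => b.1 / b.2) = L.map vv := by
    rw [List.map_map]
    rfl
  rw [h5, h6, List.length_map, hLn] at e4
  -- combine
  have hG : ∏ u ∈ U, Du u = (∏ u ∈ U₁, Du u) * ∏ u ∈ U₂, Du u := by
    rw [hU, Finset.prod_union h12]
  set G₁ := ∏ u ∈ U₁, Du u with hG₁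
  set G₂ := ∏ u ∈ U₂, Du u with hG₂
  set G := ∏ u ∈ U, Du u with hGG
  set X := ∏ u ∈ U, (u - 1) with hX
  set Pr := P (desc ((2 * n : ℕ) - 1 : ℤ) (2 * n)) U with hPr
  set Q := ∏ u ∈ U, (1 - vv u) ^ n with hQ
  set Ψ := Psi 0 (U.image vv) with hΨ
  have e5 : G ^ n * Q = X ^ (2 * n) := prod_one_sub_vv U n
  have hX0 : X ≠ 0 := by
    rw [hX, Finset.prod_ne_zero_iff]
    intro u hu
    exact (sub_pos.2 (hgood u hu).1).ne'
  have hG10 : G₁ ≠ 0 := Finset.prod_ne_zero_iff.2 fun u _ => Du_ne u
  have hG20 : G₂ ≠ 0 := Finset.prod_ne_zero_iff.2 fun u _ => Du_ne u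
  rw [c1] at e3
  have e6 : Pr * G = (-1) ^ ((2 * n).choose 2) * G ^ n * X * Ψ := by
    have h7 : X ^ (2 * n) ≠ 0 := pow_ne_zero _ hX0
    apply mul_left_cancel₀ h7
    calc X ^ (2 * n) * (Pr * G) = (X ^ (2 * n) * Pr) * G := by ring
      _ = (S (List.replicate (2 * n) 0) U * X) * G := by rw [e2]
      _ = (S (List.replicate (2 * n) 0) U * G) * X := by ring
      _ = ((-1) ^ ((2 * n).choose 2) * G ^ (2 * n) * (Q * Ψ)) * X := by rw [e1]
      _ = (-1) ^ ((2 * n).choose 2) * G ^ n * (G ^ n * Q) * Ψ * X := by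
          rw [two_mul, pow_add G n n]; ring
      _ = _ := by rw [e5]; ring
  have h8 : G₁ * G₂ ≠ 0 := mul_ne_zero hG10 hG20
  apply mul_right_cancel₀ h8
  rw [← hG, e6, hG, mul_pow]
  have e7 : G₁ ^ n * Ψ = (-1) ^ (n.choose 2) * (S (L.map vv) U₁ * G₁) := by
    rw [e3, ← mul_assoc, ← mul_assoc, ← pow_add, ← two_mul, pow_mul]
    norm_num
  calc (-1) ^ ((2 * n).choose 2) * (G₁ ^ n * G₂ ^ n) * X * Ψ
      = (-1) ^ ((2 * n).choose 2) * G₂ ^ n * X * (G₁ ^ n * Ψ) := by ring
    _ = (-1) ^ ((2 * n).choose 2) * X * (-1) ^ (n.choose 2) * G₁ *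
        (G₂ ^ n * S (L.map vv) U₁) := by rw [e7]; ring
    _ = (-1) ^ ((2 * n).choose 2) * X * (-1) ^ (n.choose 2) * G₁ *
        (Sh (L.map fun u => (u, Du u)) U₁ * G₂) := by rw [e4]
    _ = _ := by rw [pow_add]; ring

end Pool.Agent.helper40.MT
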