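import Mathlib
import Pool.Agent.helper40.MT.Main

/-! Conclusion: the limits. -/

namespace Pool.Agent.helper40.MT

open Finset Matrix Filter Topology

lemma ev_C {n : ℕ} (T : ℚ) (x : Fin n → ℚ) (a : Polynomial ℚ) :
    ev T x (MvPolynomial.C a) = a.eval T := by
  simp [ev]

lemma at0_C {n : ℕ} (a : Polynomial ℚ) :
    at0 (n := n) (MvPolynomial.C a) = MvPolynomial.C (a.eval 0) := by
  simp [at0]

/-- numerators of the column parameters -/
noncomputable def pC {n : ℕ} (c : Fin n → ℚ) (l : Fin n) : AT n :=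
  MvPolynomial.C (1 + Polynomial.X * Polynomial.C (c l))

/-- the weight polynomial -/
noncomputable def GG {n : ℕ} (c : Fin n → ℚ) : AT n :=
  ∏ i : Fin n, ∏ l : Fin n,
    if l < i then pC c l * ((1 + MvPolynomial.X i) ^ 2 - (1 + MvPolynomial.X i) + 1) +
        MvPolynomial.X i * (pC c l ^ 2 - pC c l + 1)
    else if i < l then (1 + MvPolynomial.X i) * MvPolynomial.X i * (pC c l ^ 2 - pC c l + 1) -
        pC c l * ((1 + MvPolynomial.X i) ^ 2 - (1 + MvPolynomial.X i) + 1)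
    else 1

lemma ev_pC {n : ℕ} (c : Fin n → ℚ) (l : Fin n) (T : ℚ) (x : Fin n → ℚ) :
    ev T x (pC c l) = 1 + T * c l := by
  unfold pC
  rw [ev_C]
  simp only [Polynomial.eval_add, Polynomial.eval_one, Polynomial.eval_mul, Polynomial.eval_X,
    Polynomial.eval_C]

lemma at0_pC {n : ℕ} (c : Fin n → ℚ) (l : Fin n) : at0 (pC c l) = 1 := by
  unfold pC
  rw [at0_C]
  simp

lemma ev_GG {n : ℕ} (c : Fin n → ℚ) (T : ℚ) (x : Fin n → ℚ) :
    ev T x (GG c) = ∏ i, wt (fun l => 1 + T * c l) (fun l => Du (1 + T * c l)) i (1 + x i) := by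
  unfold GG
  rw [map_prod]
  refine Finset.prod_congr rfl fun i _ => ?_
  unfold wt
  rw [map_prod]
  refine Finset.prod_congr rfl fun l _ => ?_
  split_ifs
  · simp only [map_add, map_mul, map_sub, map_pow, map_one, ev_X, ev_pC]
    unfold Du
    ring
  · simp only [map_add, map_mul, map_sub, map_pow, map_one, ev_X, ev_pC]
    unfold Du
    ring
  · simp

lemma prod_three {R : Type*} [CommRing R] {n : ℕ} (i : Fin n) (a b : R) :
    (∏ l : Fin n, if l < i then a else if i < l then b else 1) =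
      a ^ (i : ℕ) * b ^ (n - 1 - (i : ℕ)) := by
  have h1 : ∀ l : Fin n, (if l < i then a else if i < l then b else 1) =
      (if l ∈ Finset.Iio i then a else 1) * (if l ∈ Finset.Ioi i then b else 1) := by
    intro l
    simp only [Finset.mem_Iio, Finset.mem_Ioi]
    by_cases h : l < i
    · rw [if_pos h, if_pos h, if_neg (not_lt.2 h.le), mul_one]
    · rw [if_neg h, if_neg h, one_mul]
  rw [Finset.prod_congr rfl (fun l _ => h1 l), Finset.prod_mul_distrib]
  rw [Finset.prod_ite_mem, Finset.prod_ite_mem, Finset.univ_inter, Finset.univ_inter,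
    Finset.prod_const, Finset.prod_const, Fin.card_Iio, Fin.card_Ioi]

lemma sum_rev (n : ℕ) : ∑ i : Fin n, (n - 1 - (i : ℕ)) = n.choose 2 := by
  rw [← sum_fin_val, ← Equiv.sum_comp Fin.revPerm (fun i : Fin n => (i : ℕ))]
  refine Finset.sum_congr rfl fun i _ => ?_
  simp only [Fin.revPerm_apply, Fin.val_rev]
  omega

lemma at0_GG {n : ℕ} (c : Fin n → ℚ) :
    at0 (GG c) = MvPolynomial.C ((-1) ^ (n.choose 2)) *
      ∏ i : Fin n, (1 + MvPolynomial.X i) ^ (2 * (i : ℕ)) := by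
  unfold GG
  rw [map_prod]
  have h : ∀ i : Fin n, at0 (∏ l : Fin n,
      if l < i then pC c l * ((1 + MvPolynomial.X i) ^ 2 - (1 + MvPolynomial.X i) + 1) +
        MvPolynomial.X i * (pC c l ^ 2 - pC c l + 1)
      else if i < l then (1 + MvPolynomial.X i) * MvPolynomial.X i * (pC c l ^ 2 - pC c l + 1) -
        pC c l * ((1 + MvPolynomial.X i) ^ 2 - (1 + MvPolynomial.X i) + 1)
      else 1) = (-1) ^ (n - 1 - (i : ℕ)) * (1 + MvPolynomial.X i) ^ (2 * (i : ℕ)) := by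
    intro i
    rw [map_prod, pow_mul, mul_comm ((-1) ^ (n - 1 - (i : ℕ))), ← prod_three]
    refine Finset.prod_congr rfl fun l _ => ?_
    split_ifs
    · simp only [map_add, map_mul, map_sub, map_pow, map_one, at0_X, at0_pC]
      ring
    · simp only [map_add, map_mul, map_sub, map_pow, map_one, at0_X, at0_pC]
      ring
    · simp
  rw [Finset.prod_congr rfl (fun i _ => h i), Finset.prod_mul_distrib,
    Finset.prod_pow_eq_pow_sum, sum_rev]
  simp

/-- limit of the inhomogeneous sum -/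
lemma lim_Sh (n : ℕ) (c₁ c₂ : Fin n → ℚ) (hc : Function.Injective c₁) :
    Tendsto (fun T : ℚ => Sh ((List.ofFn fun l => 1 + T * c₂ l).map fun u => (u, Du u))
      (Finset.univ.image fun i => 1 + T * c₁ i)) (𝓝[>] 0)
      (𝓝 ((-1) ^ (n.choose 2) *
        MvPolynomial.eval (fun i : Fin n => 2 * (((i : ℕ) : ℚ) + 1)) (pn n))) := by
  have h := lim_Z c₁ hc (fun i T u => wt (fun l => 1 + T * c₂ l) (fun l => Du (1 + T * c₂ l)) i u)
    (GG c₂) (ev_GG c₂)
  rw [map_mul, at0_GG, mul_assoc, Lam_smul, ← eval_pn] at h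
  have h2 : MvPolynomial.eval (fun i : Fin n => ((2 * (i : ℕ) : ℕ) : ℚ)) (pn n) =
      MvPolynomial.eval (fun i : Fin n => 2 * (((i : ℕ) : ℚ) + 1)) (pn n) := by
    have := pn_shift (n := n) (fun i => ((2 * (i : ℕ) : ℕ) : ℤ)) 2
    have e1 : (fun i : Fin n => ((((2 * (i : ℕ) : ℕ) : ℤ) : ℚ) + ((2 : ℕ) : ℚ))) =
        fun i : Fin n => 2 * (((i : ℕ) : ℚ) + 1) := by
      funext i; push_cast; ring
    have e2 : (fun i : Fin n => (((2 * (i : ℕ) : ℕ) : ℤ) : ℚ)) =
        fun i : Fin n => ((2 * (i : ℕ) : ℕ) : ℚ) := by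
      funext i; push_cast; rfl
    rw [e1, e2] at this
    exact this.symm
  rw [h2] at h
  refine h.congr' ?_
  filter_upwards [self_mem_nhdsWithin] with T hT
  have hT0 : T ≠ 0 := ne_of_gt hT
  have hcard : (Finset.univ.image fun i => 1 + T * c₁ i).card = n := by
    rw [Finset.card_image_of_injective _ (one_add_inj hc hT0)]; simp
  rw [← Sh_eq_Z _ _ _ hcard, List.map_ofFn]
  rfl

lemma parity (n : ℕ) : ((-1 : ℚ)) ^ ((2 * n).choose 2) = (-1) ^ n := by
  have h : (2 * n).choose 2 = n * (2 * n - 1) := by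
    rw [Nat.choose_two_right, mul_assoc]
    exact Nat.mul_div_cancel_left _ (by norm_num)
  rw [h]
  rcases Nat.eq_zero_or_pos n with h0 | h0
  · subst h0; simp
  · obtain ⟨m, hm⟩ : ∃ m, 2 * n - 1 = 2 * m + 1 := ⟨n - 1, by omega⟩
    rw [hm, mul_add, mul_one, pow_add, ← mul_assoc, mul_comm n 2, mul_assoc, pow_mul]
    norm_num

theorem main (n : ℕ) :
    MvPolynomial.eval (fun i : Fin (2 * n + 1) => ((2 * n + 1 : ℕ) : ℚ) - ((i : ℕ) : ℚ))
      (pn (2 * n + 1)) =
    (-1) ^ n * MvPolynomial.eval (fun i : Fin n => 2 * (((i : ℕ) : ℚ) + 1)) (pn n) := by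
  set c₁ : Fin n → ℚ := fun i => ((i : ℕ) : ℚ) + 1 with hc₁
  set c₂ : Fin n → ℚ := fun i => (n : ℚ) + ((i : ℕ) : ℚ) + 1 with hc₂
  have ic₁ : Function.Injective c₁ := cinj n
  have ic₂ : Function.Injective c₂ := by
    intro a b h
    have : ((a : ℕ) : ℚ) = ((b : ℕ) : ℚ) := by
      simp only [hc₂] at h
      linarith
    exact Fin.ext (by exact_mod_cast this)
  -- left-hand side as a limit
  have hL := isLim_int (fun i : Fin (2 * n + 1) => (((2 * n + 1 : ℕ) : ℤ) - ((i : ℕ) : ℤ)))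
    (fun i => ((i : ℕ) : ℚ)) (fun a b h => Fin.ext (by
      have h' : ((a : ℕ) : ℚ) = ((b : ℕ) : ℚ) := h
      exact_mod_cast h'))
  have e0 : (fun i : Fin (2 * n + 1) => ((((2 * n + 1 : ℕ) : ℤ) - ((i : ℕ) : ℤ) : ℤ) : ℚ)) =
      fun i : Fin (2 * n + 1) => ((2 * n + 1 : ℕ) : ℚ) - ((i : ℕ) : ℚ) := by
    funext i; push_cast; ring
  rw [e0, ofFn_desc] at hL
  -- right-hand side as a limit
  have hR := lim_Sh n c₁ c₂ ic₁
  have hprod : Tendsto (fun T : ℚ => (∏ i, (1 + T * c₁ i) ^ 2) * ∏ i, (1 + T * c₂ i) ^ 2)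
      (𝓝[>] 0) (𝓝 1) := by
    have hcont : Continuous fun T : ℚ => (∏ i, (1 + T * c₁ i) ^ 2) * ∏ i, (1 + T * c₂ i) ^ 2 := by
      fun_prop
    have := (hcont.tendsto 0).mono_left (nhdsWithin_le_nhds (s := Set.Ioi 0))
    simpa using this
  have hR2 := hprod.mul (hR.const_mul ((-1) ^ ((2 * n).choose 2 + n.choose 2)))
  have hval : (1 : ℚ) * ((-1) ^ ((2 * n).choose 2 + n.choose 2) * ((-1) ^ (n.choose 2) *
        MvPolynomial.eval (fun i : Fin n => 2 * (((i : ℕ) : ℚ) + 1)) (pn n))) =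
      (-1) ^ n * MvPolynomial.eval (fun i : Fin n => 2 * (((i : ℕ) : ℚ) + 1)) (pn n) := by
    rw [← parity n, one_mul, ← mul_assoc, ← pow_add, add_assoc, ← two_mul, pow_add, pow_mul]
    norm_num
  rw [hval] at hR2
  refine tendsto_nhds_unique hL (hR2.congr' ?_)
  have hsmall : ∀ᶠ T in 𝓝[>] (0 : ℚ), T < 1 / (2 * (n : ℚ) + 1) := by
    have hpos : (0 : ℚ) < 1 / (2 * (n : ℚ) + 1) := by positivity
    exact nhdsWithin_le_nhds (Iio_mem_nhds hpos)
  filter_upwards [self_mem_nhdsWithin, hsmall] with T hT hT1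
  have hT0 : (0 : ℚ) < T := hT
  have hTn : T * (2 * (n : ℚ) + 1) < 1 := by
    rwa [lt_div_iff₀ (by positivity)] at hT1
  have i₁ := one_add_inj ic₁ hT0.ne'
  have i₂ := one_add_inj ic₂ hT0.ne'
  have b₁ : ∀ i, 0 < T * c₁ i ∧ T * c₁ i < 1 := by
    intro i
    have hi : ((i : ℕ) : ℚ) + 1 ≤ n := by exact_mod_cast i.2
    have h0 : (0 : ℚ) ≤ ((i : ℕ) : ℚ) := Nat.cast_nonneg _
    simp only [hc₁]
    constructor
    · positivity
    · nlinarith
  have b₂ : ∀ i, 0 < T * c₂ i ∧ T * c₂ i < 1 := by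
    intro i
    have hi : ((i : ℕ) : ℚ) + 1 ≤ n := by exact_mod_cast i.2
    have h0 : (0 : ℚ) ≤ ((i : ℕ) : ℚ) := Nat.cast_nonneg _
    simp only [hc₂]
    constructor
    · positivity
    · nlinarith
  set U₁ := Finset.univ.image (fun i => 1 + T * c₁ i) with hU₁
  set U₂ := Finset.univ.image (fun i => 1 + T * c₂ i) with hU₂
  have g₁ : Good U₁ := by
    intro u hu
    obtain ⟨i, -, rfl⟩ := Finset.mem_image.1 hu
    have := b₁ i
    constructor <;> linarith
  have g₂ : Good U₂ := by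
    intro u hu
    obtain ⟨i, -, rfl⟩ := Finset.mem_image.1 hu
    have := b₂ i
    constructor <;> linarith
  have hdisj : Disjoint U₁ U₂ := by
    rw [Finset.disjoint_left]
    intro u hu hu2
    obtain ⟨i, -, hi⟩ := Finset.mem_image.1 hu
    obtain ⟨j, -, hj⟩ := Finset.mem_image.1 hu2
    have h1 : T * c₁ i = T * c₂ j := by linarith
    have h2 := mul_left_cancel₀ hT0.ne' h1
    simp only [hc₁, hc₂] at h2
    have hi' : ((i : ℕ) : ℚ) + 1 ≤ n := by exact_mod_cast i.2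
    have h0 : (0 : ℚ) ≤ ((j : ℕ) : ℚ) := Nat.cast_nonneg _
    linarith
  have c1 : U₁.card = n := by
    rw [hU₁, Finset.card_image_of_injective _ i₁]; simp
  have c2 : U₂.card = n := by
    rw [hU₂, Finset.card_image_of_injective _ i₂]; simp
  have hset : (Finset.univ.image fun i : Fin (2 * n + 1) => 1 + T * ((i : ℕ) : ℚ)) =
      insert 1 (U₁ ∪ U₂) := by
    ext x
    simp only [hU₁, hU₂, Finset.mem_image, Finset.mem_univ, true_and, Finset.mem_insert,
      Finset.mem_union, hc₁, hc₂]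
    constructor
    · rintro ⟨i, rfl⟩
      have hi := i.2
      rcases Nat.eq_zero_or_pos (i : ℕ) with h0 | h0
      · left; rw [h0]; simp
      · right
        by_cases h1 : (i : ℕ) ≤ n
        · left
          refine ⟨⟨(i : ℕ) - 1, by omega⟩, ?_⟩
          have : (((i : ℕ) - 1 : ℕ) : ℚ) + 1 = ((i : ℕ) : ℚ) := by
            exact_mod_cast (by omega : (i : ℕ) - 1 + 1 = (i : ℕ))
          simp only
          rw [this]
        · right
          refine ⟨⟨(i : ℕ) - 1 - n, by omega⟩, ?_⟩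
          have : (n : ℚ) + (((i : ℕ) - 1 - n : ℕ) : ℚ) + 1 = ((i : ℕ) : ℚ) := by
            exact_mod_cast (by omega : n + ((i : ℕ) - 1 - n) + 1 = (i : ℕ))
          simp only
          rw [this]
    · rintro (rfl | ⟨i, rfl⟩ | ⟨i, rfl⟩)
      · exact ⟨0, by simp⟩
      · refine ⟨⟨(i : ℕ) + 1, by have := i.2; omega⟩, ?_⟩
        simp
      · refine ⟨⟨n + (i : ℕ) + 1, by have := i.2; omega⟩, ?_⟩
        simp
  rw [hset]
  have h1U : (1 : ℚ) ∉ U₁ ∪ U₂ := by
    intro h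
    rw [Finset.mem_union] at h
    rcases h with h | h
    · exact absurd (g₁ 1 h).1 (lt_irrefl _)
    · exact absurd (g₂ 1 h).1 (lt_irrefl _)
  have h0U : ∀ u ∈ U₁ ∪ U₂, u ≠ 0 := by
    intro u hu
    rw [Finset.mem_union] at hu
    rcases hu with h | h
    · have := (g₁ u h).1; exact (by linarith : (0 : ℚ) < u).ne'
    · have := (g₂ u h).1; exact (by linarith : (0 : ℚ) < u).ne'
  have hUcard : (U₁ ∪ U₂).card = 2 * n := by
    rw [Finset.card_union_of_disjoint hdisj, c1, c2]; ring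
  have e1 := P_insert_one (desc ((2 * n + 1 : ℕ) : ℤ) (2 * n + 1)) (U₁ ∪ U₂)
    (by rw [desc_length, hUcard]) h1U h0U
  rw [Alt_desc, if_pos (even_two_mul n)] at e1
  have e2 : desc ((2 * n + 1 : ℕ) : ℤ) (2 * n) =
      (desc ((2 * n : ℕ) - 1 : ℤ) (2 * n)).map (· + 2) := by
    rw [desc_map]
    congr 1
    push_cast
    ring
  rw [e2, P_shift _ 2 _ (by rw [desc_length, hUcard]) h0U] at e1
  have e3 := key_identity n U₁ U₂ hdisj g₁ g₂ c1 (List.ofFn fun i => 1 + T * c₂ i)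
    (List.nodup_ofFn.2 i₂) (by
      ext x
      simp [hU₂, List.mem_ofFn]) (by simp)
  rw [e3] at e1
  have hX : (∏ u ∈ U₁ ∪ U₂, (u - 1)) ≠ 0 := by
    rw [Finset.prod_ne_zero_iff]
    intro u hu h
    apply h1U
    rw [← sub_eq_zero.1 h]; exact hu
  have e4 : (∏ u ∈ U₁ ∪ U₂, u ^ (2 : ℤ)) =
      (∏ i, (1 + T * c₁ i) ^ 2) * ∏ i, (1 + T * c₂ i) ^ 2 := by
    rw [Finset.prod_union hdisj, hU₁, hU₂, Finset.prod_image (fun a _ b _ h => i₁ h),
      Finset.prod_image (fun a _ b _ h => i₂ h)]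
    congr 1
  apply mul_right_cancel₀ hX
  rw [e1, ← e4]
  ring

/-- existence and uniqueness of the monotone triangle polynomials, and their values at the
reversed rows -/
theorem final : ∃ α : (n : ℕ) → MvPolynomial (Fin n) ℚ,
    (∀ (n : ℕ) (p : MvPolynomial (Fin n) ℚ), IsMTPoly n p ↔ p = α n) ∧
    ∀ n : ℕ, 1 ≤ n →
      MvPolynomial.eval (fun i : Fin (2 * n + 1) => ((2 * n + 1 : ℕ) : ℚ) - ((i : ℕ) : ℚ))
          (α (2 * n + 1)) =
        (-1) ^ n * MvPolynomial.eval (fun i : Fin n => 2 * (((i : ℕ) : ℚ) + 1)) (α n) :=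
  ⟨pn, fun n _ => ⟨fun h => mtPoly_unique h (pn_isMTPoly n), fun h => h ▸ pn_isMTPoly n⟩,
    fun n _ => main n⟩

end Pool.Agent.helper40.MT
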